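import Pool.Agent.Helper16.CR.C8r
import Pool.Agent.Helper58.CR.C9core
import Pool.Agent.Helper7.CR.C10
import Pool.Agent.Helper9.CR.C11

/-!
CR-C12. Assembly: RH and growth give the mean square bound of `hh x * log x`.
-/

set_option autoImplicit false

namespace Pool.Agent.Helper16.CR

open Complex Filter Topology MeasureTheory Set Metric
open Pool.Agent.Helper13.Bsd Pool.Agent.Helper7.GW Pool.Agent.Helper58.BSD Pool.Agent.Helper29.MS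

variable {v : ℝ → ℝ} {G : ℂ → ℂ} {A a η B c : ℝ} {k : ℕ}

theorem cramer_order (hS : Setup v G A a η) (r : ℕ) (g : ℝ) (hg0 : 0 < g)
    (hg : Tendsto (fun y : ℝ => ‖G (y : ℂ)‖ / y ^ r) (𝓝[>] 0) (𝓝 g))
    (hrh : ∀ s : ℂ, 0 < s.re → G s ≠ 0)
    (hgr : ∀ s : ℂ, -η < s.re → ‖G s‖ ≤ B * (1 + ‖s‖) ^ k)
    (hr : ∀ s : ℂ, c ≤ s.re → ‖s * Lap v s‖ ≤ B) :
    ∃ K : ℝ, 0 ≤ K ∧ ∀ T : ℝ, 1 ≤ T →
      IntegrableOn (fun t => (t * (v t - r * Real.log t - (r * Real.eulerMascheroniConstant - Real.log g))) ^ 2)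
        (Ioc 1 T) ∧
      ∫ t in Ioc 1 T, (t * (v t - r * Real.log t - (r * Real.eulerMascheroniConstant - Real.log g))) ^ 2 ≤ K * T :=
  Pool.Agent.Helper58.CR.cramer_order_core (fun hF => cramer_zero hF) hS r g hg0 hg hrh hgr hr

theorem cramer_fwd (W : WeierstrassCurve ℤ) (N : ℕ → ℕ)
    (hNdef : ∀ p : ℕ, N p = 1 + ((Finset.range p ×ˢ Finset.range p).filter
      (fun q : ℕ × ℕ => (p : ℤ) ∣ ((q.2 : ℤ) ^ 2 + W.a₁ * (q.1 : ℤ) * (q.2 : ℤ) + W.a₃ * (q.2 : ℤ)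
        - ((q.1 : ℤ) ^ 3 + W.a₂ * (q.1 : ℤ) ^ 2 + W.a₄ * (q.1 : ℤ) + W.a₆)))).card)
    (hΔ : W.Δ ≠ 0) (F : ℂ → ℂ) (hFd : Differentiable ℂ F) (hF : EulerHyp W N F)
    (hgr : ∃ (A : ℝ) (k : ℕ), ∀ s : ℂ, 1 / 2 ≤ s.re → ‖F s‖ ≤ A * (1 + ‖s‖) ^ k)
    (hRH : ∀ ρ : ℂ, 1 < ρ.re → F ρ ≠ 0) :
    ∃ K : ℝ, ∀ X : ℝ, 2 ≤ X → IntegrableOn (fun x => (hh W N F x * Real.log x) ^ 2 / x) (Ioc 2 X) ∧
      ∫ x in Ioc 2 X, (hh W N F x * Real.log x) ^ 2 / x ≤ K * Real.log X :=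
  cramer_fwd_of (fun hS r g hg0 hg hrh hgr hr => cramer_order hS r g hg0 hg hrh hgr hr) W N hNdef hΔ F hFd hF hgr hRH

end Pool.Agent.Helper16.CR
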