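import Pool.Agent.Helper46.CR.C6
import Pool.Agent.Helper76.CR.C4
import Pool.Agent.Helper9.CR.C7
import Pool.Agent.Helper29.MS.L2

/-!
CR-C8. Plancherel for `t (v t - κ)` and the mean square bound at order zero.
-/

set_option autoImplicit false

namespace Pool.Agent.Helper16.CR

open Complex Filter Topology MeasureTheory Set Metric
open Pool.Agent.Helper13.Bsd Pool.Agent.Helper7.GW Pool.Agent.Helper58.BSD Pool.Agent.Helper29.MS

variable {v : ℝ → ℝ} {G : ℂ → ℂ} {A a η B c : ℝ} {k : ℕ}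

private theorem c8_lapInt {f : ℝ → ℝ} {A a : ℝ} (h : Grow f A a) {x : ℝ} (hx : a < x) : LapInt f x := by
  unfold LapInt
  have hint : IntegrableOn (fun t : ℝ => A * Real.exp (-(x - a) * t)) (Ioi (0 : ℝ)) :=
    (exp_neg_integrableOn_Ioi 0 (by linarith : (0 : ℝ) < x - a)).const_mul A
  refine Integrable.mono' hint ?_ ?_
  · exact (h.meas.mul (by fun_prop)).aestronglyMeasurable
  · rw [ae_restrict_iff' measurableSet_Ioi]
    filter_upwards with t ht
    have h1 := h.bd t ht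
    rw [norm_mul, Real.norm_eq_abs, Real.norm_eq_abs, Real.abs_exp]
    calc |f t| * Real.exp (-x * t) ≤ (A * Real.exp (a * t)) * Real.exp (-x * t) :=
          mul_le_mul_of_nonneg_right h1 (Real.exp_pos _).le
      _ = A * Real.exp (-(x - a) * t) := by
          rw [mul_assoc, ← Real.exp_add]
          ring_nf

private theorem c8_lap_const (κ : ℝ) {w : ℂ} (hw : 0 < w.re) : Lap (fun _ => κ) w = (κ : ℂ) / w := by
  unfold Lap
  rw [integral_const_mul]
  have h1 : ∫ t in Ioi (0 : ℝ), cexp (-w * t) = -cexp (-w * ((0 : ℝ) : ℂ)) / (-w) :=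
    integral_exp_mul_complex_Ioi (by simpa using hw) 0
  rw [h1]
  have hw0 : w ≠ 0 := by
    intro h
    rw [h] at hw
    simp at hw
  simp only [ofReal_zero, mul_zero, Complex.exp_zero]
  field_simp

theorem planch_deriv (hF : Frame v G A a η B c k) {L : ℂ → ℂ} (hL : Branch v G a L) :
    Measurable (fun t => (t * (v t - kap G)) ^ 2) ∧ ∀ σ : ℝ, 0 < σ →
      IntegrableOn (fun t => (t * (v t - kap G)) ^ 2 * Real.exp (-(2 * σ) * t)) (Ioi (0 : ℝ)) ∧
      2 * Real.pi * ∫ t in Ioi (0 : ℝ), (t * (v t - kap G)) ^ 2 * Real.exp (-(2 * σ) * t) =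
        ∫ τ : ℝ, ‖deriv (VV L (kap G)) ((σ : ℂ) + (τ : ℂ) * I)‖ ^ 2 := by
  have ha : 0 ≤ a := hF.setup.grow.ha
  have hgu : Grow (fun t => v t - kap G) (A + |kap G|) a := by
    refine ⟨hF.setup.grow.meas.sub_const _, add_nonneg hF.setup.grow.hA (abs_nonneg _), ha, fun t ht => ?_⟩
    have h1 := hF.setup.grow.bd t ht
    have h2 : (1 : ℝ) ≤ Real.exp (a * t) := Real.one_le_exp (by positivity)
    have h3 : |kap G| * 1 ≤ |kap G| * Real.exp (a * t) := mul_le_mul_of_nonneg_left h2 (abs_nonneg _)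
    have h4 : |v t - kap G| ≤ |v t| + |kap G| := abs_sub _ _
    rw [add_mul]
    linarith
  obtain ⟨hgt, hlapt⟩ := lap_mul_t hgu
  have hne : ∀ w : ℂ, 0 < w.re → w ≠ 0 := by
    intro w hw h
    rw [h] at hw
    simp at hw
  have hopen : ∀ x : ℝ, IsOpen {w : ℂ | x < w.re} := fun x => isOpen_lt continuous_const continuous_re
  have hV : DifferentiableOn ℂ (VV L (kap G)) {w : ℂ | 0 < w.re} := by
    have h1 : DifferentiableOn ℂ (fun w => -(L w + (kap G : ℂ)) / w) {w : ℂ | 0 < w.re} :=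
      ((hL.diff.add_const _).neg).div differentiableOn_id fun w hw => hne w hw
    exact h1
  have hconj0 : ∀ w : ℂ, 0 < w.re →
      VV L (kap G) ((starRingEnd ℂ) w) = (starRingEnd ℂ) (VV L (kap G) w) := by
    intro w hw
    unfold VV
    rw [hL.conj w hw, map_div₀, map_neg, map_add, conj_ofReal]
  have hVu : ∀ w : ℂ, a < w.re → VV L (kap G) w = Lap (fun t => v t - kap G) w := by
    intro w hw
    have hw0 : 0 < w.re := ha.trans_lt hw
    have hg0 : Grow (fun _ : ℝ => kap G) |kap G| 0 :=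
      ⟨measurable_const, abs_nonneg _, le_rfl, fun t _ => by simp⟩
    rw [Lap_sub hF.setup.grow.meas measurable_const (c8_lapInt hF.setup.grow hw) (c8_lapInt hg0 hw0),
      c8_lap_const _ hw0]
    unfold VV
    rw [hL.eq w hw]
    have := hne w hw0
    field_simp
    ring
  -- the derivative
  set V1 : ℂ → ℂ := fun w => -deriv (VV L (kap G)) w with hV1
  have hV1d : DifferentiableOn ℂ V1 {w : ℂ | 0 < w.re} := (hV.deriv (hopen 0)).neg
  have hconj : ∀ w : ℂ, 0 < w.re → V1 ((starRingEnd ℂ) w) = (starRingEnd ℂ) (V1 w) := by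
    intro w hw
    have hw' : 0 < ((starRingEnd ℂ) w).re := by
      rw [conj_re]
      exact hw
    have h1 : HasDerivAt (VV L (kap G)) (deriv (VV L (kap G)) w) w :=
      (hV.differentiableAt ((hopen 0).mem_nhds hw)).hasDerivAt
    have h2 : HasDerivAt ((starRingEnd ℂ) ∘ VV L (kap G) ∘ (starRingEnd ℂ))
        ((starRingEnd ℂ) (deriv (VV L (kap G)) w)) ((starRingEnd ℂ) w) := by
      have h3 : HasDerivAt (VV L (kap G)) (deriv (VV L (kap G)) w) ((starRingEnd ℂ) ((starRingEnd ℂ) w)) := by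
        rw [conj_conj]
        exact h1
      have h4 := h3.conj_conj
      rw [conj_conj] at h4
      exact h4
    have h5 : VV L (kap G) =ᶠ[𝓝 ((starRingEnd ℂ) w)] ((starRingEnd ℂ) ∘ VV L (kap G) ∘ (starRingEnd ℂ)) := by
      filter_upwards [(hopen 0).mem_nhds hw'] with z hz
      have h6 := hconj0 z hz
      simp only [Function.comp]
      rw [h6, conj_conj]
    simp only [hV1]
    rw [h5.deriv_eq, h2.deriv, map_neg]
  have hV1u : ∀ w : ℂ, a + 1 < w.re → V1 w = Lap (fun t => t * (v t - kap G)) w := by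
    intro w hw
    rw [hlapt w hw]
    simp only [hV1]
    congr 1
    have h1 : VV L (kap G) =ᶠ[𝓝 w] Lap (fun t => v t - kap G) := by
      filter_upwards [(hopen a).mem_nhds (show a < w.re by linarith)] with z hz
      exact hVu z hz
    exact h1.deriv_eq
  have hb : ∀ σ0 : ℝ, 0 < σ0 → ∃ C : ℝ, 0 ≤ C ∧ ∀ w : ℂ, σ0 ≤ w.re →
      ‖V1 w‖ ≤ C * (1 + |w.im|) ^ (-(3 / 4) : ℝ) := by
    intro σ0 hσ0
    obtain ⟨C, hC, h1⟩ := vv_deriv_growth hF hL σ0 hσ0
    refine ⟨C, hC, fun w hw => ?_⟩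
    simp only [hV1]
    rw [norm_neg]
    exact h1 w hw
  refine ⟨hgt.meas.pow_const 2, fun σ hσ => ?_⟩
  obtain ⟨h1, h2⟩ := sq_cont hgt hV1d hb hconj hV1u σ hσ
  refine ⟨h1, h2.trans ?_⟩
  refine integral_congr_ae (Eventually.of_forall fun τ => ?_)
  simp only [hV1]
  rw [norm_neg]

theorem cramer_zero (hF : Frame v G A a η B c k) :
    ∃ K : ℝ, 0 ≤ K ∧ ∀ T : ℝ, 1 ≤ T → IntegrableOn (fun t => (t * (v t - kap G)) ^ 2) (Ioc 0 T) ∧
      ∫ t in Ioc 0 T, (t * (v t - kap G)) ^ 2 ≤ K * T := by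
  obtain ⟨L, hL⟩ := exists_branch hF
  obtain ⟨hmeas, hpl⟩ := planch_deriv hF hL
  obtain ⟨K, hK, hKb⟩ := h2_deriv hF hL
  refine ⟨Real.exp 2 * K, by positivity, fun T hT => ?_⟩
  have hT0 : 0 < T := by linarith
  have hσ : 0 < 1 / T := by positivity
  have hσ1 : 1 / T ≤ 1 := by
    rw [div_le_one hT0]
    exact hT
  obtain ⟨h1, h2⟩ := hpl (1 / T) hσ
  have h3 := (hKb (1 / T) hσ hσ1).2
  have h4 : ∫ τ : ℝ, ‖deriv (VV L (kap G)) (((1 / T : ℝ) : ℂ) + (τ : ℂ) * I)‖ ^ 2 ≤ K * T := by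
    refine h3.trans (le_of_eq ?_)
    field_simp
  rw [← h2] at h4
  set q : ℝ → ℝ := fun t => (t * (v t - kap G)) ^ 2 with hq
  have hq0 : ∀ t, 0 ≤ q t := fun t => sq_nonneg _
  have h1' : IntegrableOn (fun t => q t * Real.exp (-(2 * (1 / T)) * t)) (Ioi (0 : ℝ)) := h1
  have h5 : IntegrableOn (fun t => Real.exp 2 * (q t * Real.exp (-(2 * (1 / T)) * t))) (Ioc 0 T) :=
    (h1'.mono_set Ioc_subset_Ioi_self).const_mul _
  have hle : ∀ t ∈ Ioc 0 T, q t ≤ Real.exp 2 * (q t * Real.exp (-(2 * (1 / T)) * t)) := by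
    intro t ht
    have h6 : (1 : ℝ) ≤ Real.exp 2 * Real.exp (-(2 * (1 / T)) * t) := by
      rw [← Real.exp_add]
      apply Real.one_le_exp
      have h7 : t / T ≤ 1 := by
        rw [div_le_one hT0]
        exact ht.2
      have h8 : -(2 * (1 / T)) * t = -(2 * (t / T)) := by ring
      rw [h8]
      linarith
    nlinarith [hq0 t]
  have hqm : Measurable q := hmeas
  have h6 : IntegrableOn q (Ioc 0 T) := by
    refine Integrable.mono' h5 hqm.aestronglyMeasurable ?_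
    rw [ae_restrict_iff' measurableSet_Ioc]
    refine Eventually.of_forall fun t ht => ?_
    rw [Real.norm_eq_abs, abs_of_nonneg (hq0 t)]
    exact hle t ht
  refine ⟨h6, ?_⟩
  have h7 : ∫ t in Ioc 0 T, q t ≤ ∫ t in Ioc 0 T, Real.exp 2 * (q t * Real.exp (-(2 * (1 / T)) * t)) :=
    setIntegral_mono_on h6 h5 measurableSet_Ioc hle
  have h8 : ∫ t in Ioc 0 T, (q t * Real.exp (-(2 * (1 / T)) * t)) ≤
      ∫ t in Ioi (0 : ℝ), (q t * Real.exp (-(2 * (1 / T)) * t)) := by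
    refine setIntegral_mono_set h1' ?_ ?_
    · exact Eventually.of_forall fun t => mul_nonneg (hq0 t) (Real.exp_pos _).le
    · exact Eventually.of_forall fun t ht => Ioc_subset_Ioi_self ht
  rw [integral_const_mul] at h7
  have h9 : 0 ≤ ∫ t in Ioi (0 : ℝ), (q t * Real.exp (-(2 * (1 / T)) * t)) :=
    setIntegral_nonneg measurableSet_Ioi fun t _ => mul_nonneg (hq0 t) (Real.exp_pos _).le
  have h10 : ∫ t in Ioi (0 : ℝ), (q t * Real.exp (-(2 * (1 / T)) * t)) ≤ K * T := by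
    have hpi := Real.pi_gt_three
    have h11 : (2 * Real.pi) * ∫ t in Ioi (0 : ℝ), (q t * Real.exp (-(2 * (1 / T)) * t)) ≤ K * T := h4
    nlinarith
  have h11 := Real.exp_pos 2
  calc ∫ t in Ioc 0 T, q t ≤ Real.exp 2 * ∫ t in Ioc 0 T, (q t * Real.exp (-(2 * (1 / T)) * t)) := h7
    _ ≤ Real.exp 2 * (K * T) := mul_le_mul_of_nonneg_left (h8.trans h10) h11.le
    _ = Real.exp 2 * K * T := by ring

end Pool.Agent.Helper16.CR
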