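import Pool.Agent.Helper46.CR.V3e

/-!
CR-E. The explicit formula of `hs x * log x` in mean square, with the exact size of the tail.
-/

set_option autoImplicit false

namespace Pool.Agent.Helper16.CR

open Complex Filter Topology MeasureTheory Set
open Pool.Agent.Helper13.Bsd Pool.Agent.Helper7.GW Pool.Agent.Helper58.BSD Pool.Agent.Helper29.MS
open Pool.Agent.Helper46.CR (ap_core lap_all residue PP ee_cont PP_cont frame_order)
open Pool.Agent.Helper16.OM (hs TTb Fac GG_fac hs_exp log_kon ee_rate2 EinL2_bounds)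

theorem frame_hs_of (W : WeierstrassCurve ℤ) (N : ℕ → ℕ)
    (hNdef : ∀ p : ℕ, N p = 1 + ((Finset.range p ×ˢ Finset.range p).filter
      (fun q : ℕ × ℕ => (p : ℤ) ∣ ((q.2 : ℤ) ^ 2 + W.a₁ * (q.1 : ℤ) * (q.2 : ℤ) + W.a₃ * (q.2 : ℤ)
        - ((q.1 : ℤ) ^ 3 + W.a₂ * (q.1 : ℤ) ^ 2 + W.a₄ * (q.1 : ℤ) + W.a₆)))).card)
    (hΔ : W.Δ ≠ 0) (F : ℂ → ℂ) (hFd : Differentiable ℂ F) (hF : EulerHyp W N F)
    (hmeas : Measurable (hs W N F))
    (hbdd : ∀ a b : ℝ, 0 < a → ∃ C : ℝ, 0 ≤ C ∧ ∀ t : ℝ, a ≤ t → t ≤ b → |hs W N F (Real.exp t)| ≤ C)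
    (hgr : ∃ (A : ℝ) (k : ℕ), ∀ s : ℂ, 1 / 2 ≤ s.re → ‖F s‖ ≤ A * (1 + ‖s‖) ^ k)
    (hRH : ∀ ρ : ℂ, 1 < ρ.re → F ρ ≠ 0) :
    ∃ (v' : ℝ → ℝ) (G' : ℂ → ℂ) (A' a' B' c' : ℝ) (k' : ℕ), Frame v' G' A' a' (1 / 100) B' c' k' ∧
      Fac G' (fun γ : ℝ => analyticOrderNatAt F (1 + γ * I)) ∧
      IntegrableOn (fun t => (wcut W N F t - t * (v' t - kap G')) ^ 2) (Ioi 0) := by
  set r := analyticOrderNatAt F 1 with hr
  have hN := nhyp W N hNdef
  have hB : EulerB N (badW W) F := hF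
  obtain ⟨A, hS⟩ := bsd_setup hN F hFd hB
  obtain ⟨hg0, hg⟩ := GG_lead hN F hFd hB
  rw [← hr] at hg0 hg
  obtain ⟨B1, k, hB1, hgrow⟩ := GG_growth (bad := badW W) hN F hgr
  obtain ⟨B2, hB2, hright⟩ := right_bound (bad := badW W) hN
  have hrh : ∀ s : ℂ, 0 < s.re → GG N (badW W) F s ≠ 0 := by
    intro s hs h0
    rw [GG_zero_iff hN F s hs.le] at h0
    refine hRH (1 + s) ?_ h0
    rw [add_re, one_re]
    linarith
  set g : ℝ := ‖iteratedDeriv r F 1‖ / (r.factorial : ℝ) * Real.exp (E0 N (badW W)) with hgdef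
  have hgr2 : ∀ s : ℂ, -(1 / 100 : ℝ) < s.re → ‖GG N (badW W) F s‖ ≤ max B1 B2 * (1 + ‖s‖) ^ k := by
    intro s hs
    refine (hgrow s hs).trans ?_
    gcongr
    exact le_max_left _ _
  have hr2 : ∀ s : ℂ, (11 : ℝ) ≤ s.re →
      ‖s * Lap (fun t => LL N (badW W) t - ee N (badW W) t) s‖ ≤ max B1 B2 := fun s hs =>
    (hright s hs).trans (le_max_right _ _)
  have hmm : Fac (GG N (badW W) F) (fun γ : ℝ => analyticOrderNatAt F (1 + γ * I)) := fun μ _ =>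
    GG_fac hN F hFd hB (μ * I) (by simp)
  obtain ⟨G', A', a', B', c', k', hFr, hkap, hmm'⟩ := frame_order hS r g hg0 hg hrh hgr2 hr2 _ hmm
  set u : ℝ → ℝ := fun t => t * (((LL N (badW W) t - ee N (badW W) t) - r * ein t) - kap G') with hu
  have hum : Measurable u := measurable_id.mul (hFr.setup.grow.meas.sub_const _)
  have hwm := measurable_wcut W N F hmeas
  refine ⟨fun t => (LL N (badW W) t - ee N (badW W) t) - r * ein t, G', A', a', B', c', k', hFr, hmm', ?_⟩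
  show IntegrableOn (fun t => (wcut W N F t - u t) ^ 2) (Ioi 0)
  -- the difference is square integrable
  obtain ⟨K, T0, hK, hT0, hrate⟩ := ee_rate2 hN (finite_bad W hΔ)
  have hr0 : (0 : ℝ) ≤ r := Nat.cast_nonneg r
  have hl2 : Real.log 2 ≤ 1 := by
    have := Real.log_two_lt_d9
    linarith
  have hdm : Measurable (fun t => (wcut W N F t - u t) ^ 2) := (hwm.sub hum).pow_const 2
  -- bounded part
  have h1 : IntegrableOn (fun t => (wcut W N F t - u t) ^ 2) (Ioc 0 T0) := by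
    obtain ⟨K0, -, hK0⟩ := cramer_zero hFr
    have h2 : IntegrableOn (fun t => u t ^ 2) (Ioc 0 T0) := (hK0 T0 hT0).1
    obtain ⟨D, hD, hDb⟩ := wcut_bdd W N F hbdd T0
    have h3 : IntegrableOn (fun t => wcut W N F t ^ 2) (Ioc 0 T0) := by
      refine Measure.integrableOn_of_bounded (M := D ^ 2) measure_Ioc_lt_top.ne
        (hwm.pow_const 2).aestronglyMeasurable ?_
      rw [ae_restrict_iff' measurableSet_Ioc]
      refine Filter.Eventually.of_forall fun t ht => ?_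
      rw [Real.norm_eq_abs, abs_of_nonneg (sq_nonneg _), ← sq_abs]
      exact pow_le_pow_left₀ (abs_nonneg _) (hDb t ht) 2
    refine Integrable.mono' ((h3.const_mul 2).add (h2.const_mul 2)) hdm.aestronglyMeasurable
      (Filter.Eventually.of_forall fun t => ?_)
    rw [Real.norm_eq_abs, abs_of_nonneg (sq_nonneg _)]
    show (wcut W N F t - u t) ^ 2 ≤ 2 * wcut W N F t ^ 2 + 2 * u t ^ 2
    nlinarith [sq_nonneg (wcut W N F t + u t)]
  -- tail
  have hdeq : ∀ t : ℝ, T0 < t → wcut W N F t - u t = t * ((ee N (badW W) t + TTb N (badW W) (Real.exp t)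
      - E0 N (badW W)) + r * (ein t - Real.log t - Real.eulerMascheroniConstant)) := by
    intro t ht
    have ht0 : 0 < t := by linarith
    have h2 : wcut W N F t = t * hs W N F (Real.exp t) := by
      unfold wcut
      rw [indicator_of_mem]
      show Real.log 2 < t
      linarith
    rw [h2, hs_exp W N hNdef hΔ F hFd hF t ht0, log_kon W N hNdef hΔ F hFd hF, ← hr, ← hgdef]
    simp only [hu]
    rw [hkap]
    ring
  have hdb : ∀ t : ℝ, T0 < t → (wcut W N F t - u t) ^ 2 ≤ (100 * (K + r) ^ 2) * Real.exp (-(1 / 4) * t) := by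
    intro t ht
    have ht1 : 1 ≤ t := by linarith
    have ht0 : 0 < t := by linarith
    rw [hdeq t ht]
    have h2 := hrate t ht.le
    obtain ⟨h6, h7⟩ := EinL2_bounds ht1
    have e1 : Real.exp (-t) ≤ Real.exp (-(47 / 200 * t)) := Real.exp_le_exp.2 (by linarith)
    have e0 := Real.exp_pos (-(47 / 200 * t))
    have h3 : |(ee N (badW W) t + TTb N (badW W) (Real.exp t) - E0 N (badW W)) +
        r * (ein t - Real.log t - Real.eulerMascheroniConstant)| ≤ (K + r) * Real.exp (-(47 / 200 * t)) := by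
      refine (abs_add_le _ _).trans ?_
      rw [abs_of_nonneg (mul_nonneg hr0 h6), add_mul]
      exact add_le_add h2 (mul_le_mul_of_nonneg_left (h7.trans e1) hr0)
    have h4 : t ≤ 10 * Real.exp (t / 10) := by
      have := Real.add_one_le_exp (t / 10)
      linarith
    have h5 : |t * ((ee N (badW W) t + TTb N (badW W) (Real.exp t) - E0 N (badW W)) +
        r * (ein t - Real.log t - Real.eulerMascheroniConstant))| ≤
        10 * (K + r) * Real.exp (-(1 / 8) * t) := by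
      rw [abs_mul, abs_of_pos ht0]
      calc t * _ ≤ (10 * Real.exp (t / 10)) * ((K + r) * Real.exp (-(47 / 200 * t))) :=
            mul_le_mul h4 h3 (abs_nonneg _) (by positivity)
        _ = 10 * (K + r) * (Real.exp (t / 10) * Real.exp (-(47 / 200 * t))) := by ring
        _ ≤ 10 * (K + r) * Real.exp (-(1 / 8) * t) := by
            apply mul_le_mul_of_nonneg_left _ (by positivity)
            rw [← Real.exp_add, Real.exp_le_exp]
            linarith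
    rw [← sq_abs]
    calc _ ≤ (10 * (K + r) * Real.exp (-(1 / 8) * t)) ^ 2 := pow_le_pow_left₀ (abs_nonneg _) h5 2
      _ = 100 * (K + r) ^ 2 * (Real.exp (-(1 / 8) * t) * Real.exp (-(1 / 8) * t)) := by ring
      _ = _ := by
          rw [← Real.exp_add]
          congr 2
          ring
  have h2 : IntegrableOn (fun t => (wcut W N F t - u t) ^ 2) (Ioi T0) := by
    have h3 : IntegrableOn (fun t : ℝ => (100 * (K + r) ^ 2) * Real.exp (-(1 / 4) * t)) (Ioi T0) :=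
      (exp_neg_integrableOn_Ioi T0 (by norm_num : (0 : ℝ) < 1 / 4)).const_mul _
    refine Integrable.mono' h3 hdm.aestronglyMeasurable ?_
    rw [ae_restrict_iff' measurableSet_Ioi]
    refine Filter.Eventually.of_forall fun t ht => ?_
    rw [Real.norm_eq_abs, abs_of_nonneg (sq_nonneg _)]
    exact hdb t ht
  have h3 : Ioi (0 : ℝ) = Ioc 0 T0 ∪ Ioi T0 := (Ioc_union_Ioi_eq_Ioi (by linarith)).symm
  rw [h3]
  exact h1.union h2


/-- order zero: the exact mean square of the remainder -/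
theorem expl_zero {v : ℝ → ℝ} {G : ℂ → ℂ} {A a η B c : ℝ} {k : ℕ} (hF : Frame v G A a η B c k)
    (mm : ℝ → ℕ) (hmm : Fac G mm) (s : Finset ℝ) (hs : (0 : ℝ) ∉ s) :
    (∀ T : ℝ, IntegrableOn (fun t : ℝ => ‖((t * (v t - kap G) : ℝ) : ℂ) -
      PP s (fun γ => (mm γ : ℂ) / ((γ : ℂ) * I)) t‖ ^ 2) (Ioc 0 T)) ∧
    Tendsto (fun T : ℝ => (1 / T) * ∫ t in Ioc 0 T, ‖((t * (v t - kap G) : ℝ) : ℂ) -
      PP s (fun γ => (mm γ : ℂ) / ((γ : ℂ) * I)) t‖ ^ 2) atTop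
      (𝓝 ((∑' γ : ℝ, if γ = 0 then 0 else (mm γ : ℝ) ^ 2 / γ ^ 2) - ∑ γ ∈ s, (mm γ : ℝ) ^ 2 / γ ^ 2)) := by
  classical
  obtain ⟨L, hL⟩ := exists_branch hF
  obtain ⟨hsum, hlim⟩ := mean_sq hF hL mm hmm
  obtain ⟨-, hpl⟩ := planch_deriv hF hL
  have hu : Measurable (fun t : ℝ => t * (v t - kap G)) :=
    measurable_id.mul (hF.setup.grow.meas.sub_const _)
  have h2 : ∀ s : ℝ, 0 < s → IntegrableOn (fun t => (t * (v t - kap G)) ^ 2 * Real.exp (-s * t)) (Ioi 0) := by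
    intro s hs
    have h1 := (hpl (s / 2) (by positivity)).1
    rwa [show 2 * (s / 2) = s by ring] at h1
  have hS : Tendsto (fun s : ℝ => s * ∫ t in Ioi (0 : ℝ), (t * (v t - kap G)) ^ 2 * Real.exp (-s * t))
      (𝓝[>] 0) (𝓝 (∑' γ : ℝ, if γ = 0 then 0 else (mm γ : ℝ) ^ 2 / γ ^ 2)) := by
    have hhalf : Tendsto (fun s : ℝ => s / 2) (𝓝[>] 0) (𝓝[>] 0) := by
      rw [tendsto_nhdsWithin_iff]
      constructor
      · have h1 : Tendsto (fun s : ℝ => s / 2) (𝓝 0) (𝓝 (0 / 2)) := (continuous_id.div_const 2).tendsto 0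
        rw [zero_div] at h1
        exact h1.mono_left nhdsWithin_le_nhds
      · filter_upwards [self_mem_nhdsWithin] with s hs
        have hs' : (0 : ℝ) < s := hs
        exact half_pos hs'
    have h3 := (hlim.comp hhalf).const_mul (Real.pi)⁻¹
    have h4 : (Real.pi)⁻¹ * (Real.pi * ∑' γ : ℝ, if γ = 0 then 0 else (mm γ : ℝ) ^ 2 / γ ^ 2) =
        ∑' γ : ℝ, if γ = 0 then 0 else (mm γ : ℝ) ^ 2 / γ ^ 2 := by
      rw [← mul_assoc, inv_mul_cancel₀ Real.pi_pos.ne', one_mul]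
    rw [h4] at h3
    refine h3.congr' ?_
    filter_upwards [self_mem_nhdsWithin] with s hs
    have hs' : (0 : ℝ) < s := hs
    have h5 := (hpl (s / 2) (by positivity)).2
    rw [show 2 * (s / 2) = s by ring] at h5
    show (Real.pi)⁻¹ * (s / 2 * ∫ τ : ℝ, ‖deriv (VV L (kap G)) (((s / 2 : ℝ) : ℂ) + (τ : ℂ) * I)‖ ^ 2) = _
    rw [← h5]
    have := Real.pi_pos.ne'
    field_simp
  have hne : ∀ γ ∈ s, γ ≠ 0 := fun γ hγ h => hs (h ▸ hγ)
  obtain ⟨hi, ht⟩ := ap_core hu h2 (fun w hw => lap_all hF hL hw) hS s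
    (fun γ => (mm γ : ℂ) / ((γ : ℂ) * I)) (fun γ hγ => residue hL hmm (hne γ hγ))
  have hnorm : ∑ γ ∈ s, ‖(mm γ : ℂ) / ((γ : ℂ) * I)‖ ^ 2 = ∑ γ ∈ s, (mm γ : ℝ) ^ 2 / γ ^ 2 := by
    refine Finset.sum_congr rfl fun γ _ => ?_
    rw [norm_div, norm_mul, norm_I, mul_one, norm_real, Complex.norm_natCast, div_pow, Real.norm_eq_abs, sq_abs]
  rw [hnorm] at ht
  exact ⟨hi, ht⟩

/-- stability of the mean square under square integrable perturbations -/
theorem pertC {u w : ℝ → ℝ} {P : ℝ → ℂ} {S : ℝ} (hu : Measurable u) (hw : Measurable w) (hP : Continuous P)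
    (hd : IntegrableOn (fun t => (w t - u t) ^ 2) (Ioi 0))
    (hi : ∀ T : ℝ, IntegrableOn (fun t => ‖(u t : ℂ) - P t‖ ^ 2) (Ioc 0 T))
    (hl : Tendsto (fun T : ℝ => (1 / T) * ∫ t in Ioc 0 T, ‖(u t : ℂ) - P t‖ ^ 2) atTop (𝓝 S)) :
    (∀ T : ℝ, IntegrableOn (fun t => ‖(w t : ℂ) - P t‖ ^ 2) (Ioc 0 T)) ∧
    Tendsto (fun T : ℝ => (1 / T) * ∫ t in Ioc 0 T, ‖(w t : ℂ) - P t‖ ^ 2) atTop (𝓝 S) := by
  set M : ℝ := ∫ t in Ioi (0 : ℝ), (w t - u t) ^ 2 with hM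
  have hM0 : 0 ≤ M := setIntegral_nonneg measurableSet_Ioi fun t _ => sq_nonneg _
  have hdT : ∀ T : ℝ, IntegrableOn (fun t => (w t - u t) ^ 2) (Ioc 0 T) := fun T => hd.mono_set Ioc_subset_Ioi_self
  have hdM : ∀ T : ℝ, ∫ t in Ioc 0 T, (w t - u t) ^ 2 ≤ M := fun T =>
    setIntegral_mono_set hd (Eventually.of_forall fun t => sq_nonneg _) Ioc_subset_Ioi_self.eventuallyLE
  have hwm : Measurable (fun t => ‖(w t : ℂ) - P t‖ ^ 2) :=
    ((measurable_ofReal.comp hw).sub hP.measurable).norm.pow_const 2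
  -- pointwise bounds
  have key : ∀ t : ℝ, ∀ θ : ℝ, 0 < θ →
      ‖(w t : ℂ) - P t‖ ^ 2 ≤ (1 + θ) * ‖(u t : ℂ) - P t‖ ^ 2 + (1 + 1 / θ) * (w t - u t) ^ 2 ∧
      (1 - θ) * ‖(u t : ℂ) - P t‖ ^ 2 - (1 / θ) * (w t - u t) ^ 2 ≤ ‖(w t : ℂ) - P t‖ ^ 2 := by
    intro t θ hθ
    have e1 : ‖((w t - u t : ℝ) : ℂ)‖ = |w t - u t| := by rw [norm_real, Real.norm_eq_abs]
    have e2 : (w t : ℂ) - P t = ((u t : ℂ) - P t) + ((w t - u t : ℝ) : ℂ) := by
      push_cast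
      ring
    set x : ℝ := ‖(u t : ℂ) - P t‖ with hx
    set y : ℝ := |w t - u t| with hy
    set z : ℝ := ‖(w t : ℂ) - P t‖ with hz
    have hx0 : 0 ≤ x := norm_nonneg _
    have hy0 : 0 ≤ y := abs_nonneg _
    have hz0 : 0 ≤ z := norm_nonneg _
    have h1 : z ≤ x + y := by
      rw [hz, e2, ← e1]
      exact norm_add_le _ _
    have h2 : x ≤ z + y := by
      have e3 : (u t : ℂ) - P t = ((w t : ℂ) - P t) - ((w t - u t : ℝ) : ℂ) := by
        push_cast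
        ring
      rw [hx, e3, ← e1]
      exact norm_sub_le _ _
    have e4 : (w t - u t) ^ 2 = y ^ 2 := (sq_abs _).symm
    rw [e4]
    have h5 : 0 ≤ (θ * x - y) ^ 2 / θ := by positivity
    have h6 : (θ * x - y) ^ 2 / θ = θ * x ^ 2 - 2 * (x * y) + 1 / θ * y ^ 2 := by
      field_simp
      ring
    rw [h6] at h5
    constructor
    · have h7 : z ^ 2 ≤ (x + y) ^ 2 := pow_le_pow_left₀ hz0 h1 2
      nlinarith
    · rcases le_total y x with hc | hc
      · have h7 : (x - y) ^ 2 ≤ z ^ 2 := pow_le_pow_left₀ (by linarith) (by linarith) 2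
        nlinarith [sq_nonneg y]
      · -- `x ≤ y`
        have h8 : (1 - θ) * x ^ 2 - 1 / θ * y ^ 2 ≤ 0 := by
          have h9 : x ^ 2 ≤ x * y := by nlinarith
          nlinarith [sq_nonneg x, mul_nonneg hx0 hy0]
        exact h8.trans (sq_nonneg _)
  have hwT : ∀ T : ℝ, IntegrableOn (fun t => ‖(w t : ℂ) - P t‖ ^ 2) (Ioc 0 T) := by
    intro T
    refine Integrable.mono' (((hi T).const_mul (1 + 1)).add ((hdT T).const_mul (1 + 1 / 1)))
      hwm.aestronglyMeasurable (Eventually.of_forall fun t => ?_)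
    rw [Real.norm_eq_abs, abs_of_nonneg (sq_nonneg _)]
    exact (key t 1 one_pos).1
  refine ⟨hwT, ?_⟩
  have hS0 : 0 ≤ S := by
    refine ge_of_tendsto hl ?_
    filter_upwards [eventually_gt_atTop (0 : ℝ)] with T hT
    exact mul_nonneg (by positivity) (setIntegral_nonneg measurableSet_Ioc fun t _ => sq_nonneg _)
  rw [Metric.tendsto_atTop']
  intro e he
  set θ : ℝ := e / (3 * (S + 1)) with hθ
  have hθ0 : 0 < θ := by rw [hθ]; positivity
  have h1 : ∀ᶠ T : ℝ in atTop, |(1 / T) * (∫ t in Ioc 0 T, ‖(u t : ℂ) - P t‖ ^ 2) - S| < min (e / 3) 1 := by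
    have h := (Metric.tendsto_nhds.mp hl) (min (e / 3) 1) (by positivity)
    simpa [Real.dist_eq] using h
  have hld : Tendsto (fun T : ℝ => (1 / T) * ∫ t in Ioc 0 T, (w t - u t) ^ 2) atTop (𝓝 0) :=
    mean_zero (fun t => sq_nonneg _) M 0 hdM
  have h2 : ∀ᶠ T : ℝ in atTop, (1 + 1 / θ) * ((1 / T) * ∫ t in Ioc 0 T, (w t - u t) ^ 2) < e / 3 := by
    have h := hld.const_mul (1 + 1 / θ)
    rw [mul_zero] at h
    exact h.eventually (gt_mem_nhds (by positivity))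
  have h3 : ∀ᶠ T : ℝ in atTop, dist ((1 / T) * ∫ t in Ioc 0 T, ‖(w t : ℂ) - P t‖ ^ 2) S < e := by
    filter_upwards [h1, h2, eventually_gt_atTop (0 : ℝ)] with T h1 h2 hT
    set a := (1 / T) * ∫ t in Ioc 0 T, ‖(u t : ℂ) - P t‖ ^ 2 with ha
    set b := (1 / T) * ∫ t in Ioc 0 T, (w t - u t) ^ 2 with hb
    have hT' : 0 ≤ 1 / T := by positivity
    have hup : (1 / T) * ∫ t in Ioc 0 T, ‖(w t : ℂ) - P t‖ ^ 2 ≤ (1 + θ) * a + (1 + 1 / θ) * b := by
      have h4 : ∫ t in Ioc 0 T, ‖(w t : ℂ) - P t‖ ^ 2 ≤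
          ∫ t in Ioc 0 T, ((1 + θ) * ‖(u t : ℂ) - P t‖ ^ 2 + (1 + 1 / θ) * (w t - u t) ^ 2) :=
        setIntegral_mono_on (hwT T) (((hi T).const_mul _).add ((hdT T).const_mul _)) measurableSet_Ioc
          fun t _ => (key t θ hθ0).1
      rw [integral_add ((hi T).const_mul _) ((hdT T).const_mul _), integral_const_mul, integral_const_mul] at h4
      calc (1 / T) * ∫ t in Ioc 0 T, ‖(w t : ℂ) - P t‖ ^ 2 ≤
            (1 / T) * ((1 + θ) * (∫ t in Ioc 0 T, ‖(u t : ℂ) - P t‖ ^ 2) +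
              (1 + 1 / θ) * ∫ t in Ioc 0 T, (w t - u t) ^ 2) := mul_le_mul_of_nonneg_left h4 hT'
        _ = (1 + θ) * a + (1 + 1 / θ) * b := by rw [ha, hb]; ring
    have hlo : (1 - θ) * a - (1 / θ) * b ≤ (1 / T) * ∫ t in Ioc 0 T, ‖(w t : ℂ) - P t‖ ^ 2 := by
      have h4 : ∫ t in Ioc 0 T, ((1 - θ) * ‖(u t : ℂ) - P t‖ ^ 2 - (1 / θ) * (w t - u t) ^ 2) ≤
          ∫ t in Ioc 0 T, ‖(w t : ℂ) - P t‖ ^ 2 :=
        setIntegral_mono_on (((hi T).const_mul _).sub ((hdT T).const_mul _)) (hwT T) measurableSet_Ioc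
          fun t _ => (key t θ hθ0).2
      rw [integral_sub ((hi T).const_mul _) ((hdT T).const_mul _), integral_const_mul, integral_const_mul] at h4
      calc (1 - θ) * a - (1 / θ) * b = (1 / T) * ((1 - θ) * (∫ t in Ioc 0 T, ‖(u t : ℂ) - P t‖ ^ 2) -
            (1 / θ) * ∫ t in Ioc 0 T, (w t - u t) ^ 2) := by rw [ha, hb]; ring
        _ ≤ _ := mul_le_mul_of_nonneg_left h4 hT'
    have hb0 : 0 ≤ b := mul_nonneg hT' (setIntegral_nonneg measurableSet_Ioc fun t _ => sq_nonneg _)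
    have ha1 : a < S + 1 := by
      have := (abs_lt.mp (h1.trans_le (min_le_right _ _))).2
      linarith
    have ha0 : 0 ≤ a := mul_nonneg hT' (setIntegral_nonneg measurableSet_Ioc fun t _ => sq_nonneg _)
    have hθa : θ * a ≤ e / 3 := by
      have h5 : θ * a ≤ θ * (S + 1) := mul_le_mul_of_nonneg_left ha1.le hθ0.le
      have h6 : θ * (S + 1) = e / 3 := by
        rw [hθ]
        field_simp
      linarith
    have h5 := abs_lt.mp (h1.trans_le (min_le_left _ _))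
    have h6 : (1 / θ) * b ≤ (1 + 1 / θ) * b := by nlinarith
    rw [Real.dist_eq, abs_lt]
    constructor <;> linarith [h5.1, h5.2]
  obtain ⟨T0, hT0⟩ := eventually_atTop.mp h3
  exact ⟨T0, fun T hT => hT0 T hT.le⟩

/-- the explicit formula in mean square, with the exact size of the tail -/
theorem expl_hs_of (W : WeierstrassCurve ℤ) (N : ℕ → ℕ)
    (hNdef : ∀ p : ℕ, N p = 1 + ((Finset.range p ×ˢ Finset.range p).filter
      (fun q : ℕ × ℕ => (p : ℤ) ∣ ((q.2 : ℤ) ^ 2 + W.a₁ * (q.1 : ℤ) * (q.2 : ℤ) + W.a₃ * (q.2 : ℤ)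
        - ((q.1 : ℤ) ^ 3 + W.a₂ * (q.1 : ℤ) ^ 2 + W.a₄ * (q.1 : ℤ) + W.a₆)))).card)
    (hΔ : W.Δ ≠ 0) (F : ℂ → ℂ) (hFd : Differentiable ℂ F) (hF : EulerHyp W N F)
    (hmeas : Measurable (hs W N F))
    (hbdd : ∀ a b : ℝ, 0 < a → ∃ C : ℝ, 0 ≤ C ∧ ∀ t : ℝ, a ≤ t → t ≤ b → |hs W N F (Real.exp t)| ≤ C)
    (hgr : ∃ (A : ℝ) (k : ℕ), ∀ s : ℂ, 1 / 2 ≤ s.re → ‖F s‖ ≤ A * (1 + ‖s‖) ^ k)
    (hRH : ∀ ρ : ℂ, 1 < ρ.re → F ρ ≠ 0) (Z : Finset ℝ) (hZ : (0 : ℝ) ∉ Z) :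
    (∀ X : ℝ, IntegrableOn (fun x : ℝ => ‖((hs W N F x * Real.log x : ℝ) : ℂ) -
      ∑ γ ∈ Z, (analyticOrderNatAt F (1 + γ * I) : ℂ) / (γ * I) * (x : ℂ) ^ (γ * I)‖ ^ 2 / x) (Ioc 2 X)) ∧
    Tendsto (fun X : ℝ => (1 / Real.log X) * ∫ x in Ioc 2 X, ‖((hs W N F x * Real.log x : ℝ) : ℂ) -
      ∑ γ ∈ Z, (analyticOrderNatAt F (1 + γ * I) : ℂ) / (γ * I) * (x : ℂ) ^ (γ * I)‖ ^ 2 / x) atTop
      (𝓝 ((∑' γ : ℝ, if γ = 0 then 0 else (analyticOrderNatAt F (1 + γ * I) : ℝ) ^ 2 / γ ^ 2) -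
        ∑ γ ∈ Z, (analyticOrderNatAt F (1 + γ * I) : ℝ) ^ 2 / γ ^ 2)) := by
  obtain ⟨v', G', A', a', B', c', k', hFr, hmm, hd⟩ := frame_hs_of W N hNdef hΔ F hFd hF hmeas hbdd hgr hRH
  obtain ⟨hi0, hl0⟩ := expl_zero hFr _ hmm Z hZ
  have hwm := measurable_wcut W N F hmeas
  have hum : Measurable (fun t : ℝ => t * (v' t - kap G')) :=
    measurable_id.mul (hFr.setup.grow.meas.sub_const _)
  obtain ⟨hi, hl⟩ := pertC hum hwm (PP_cont Z _) hd hi0 hl0
  have hl2 : 0 < Real.log 2 := Real.log_pos one_lt_two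
  have h1 := shift_start hi hl2.le hl
  set q : ℝ → ℝ := fun x => ‖((hs W N F x * Real.log x : ℝ) : ℂ) -
      ∑ γ ∈ Z, (analyticOrderNatAt F (1 + γ * I) : ℂ) / (γ * I) * (x : ℂ) ^ (γ * I)‖ ^ 2 with hq
  have hfun : ∀ t ∈ Ioi (Real.log 2), q (Real.exp t) = ‖(wcut W N F t : ℂ) -
      PP Z (fun γ : ℝ => (analyticOrderNatAt F (1 + γ * I) : ℂ) / (γ * I)) t‖ ^ 2 := by
    intro t ht
    simp only [hq]
    unfold wcut PP
    rw [indicator_of_mem ht, Real.log_exp, mul_comm t]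
    congr 3
    refine Finset.sum_congr rfl fun γ _ => ?_
    congr 1
    unfold Pool.Agent.Helper46.CR.ee
    rw [cpow_def_of_ne_zero (by exact_mod_cast (Real.exp_pos t).ne'), ← ofReal_log (Real.exp_pos t).le,
      Real.log_exp]
    congr 1
    push_cast
    ring
  have hsub : ∀ X : ℝ, 0 < X → IntegrableOn (fun x => q x / x) (Ioc 2 X) ∧
      ∫ x in Ioc 2 X, q x / x = ∫ t in Ioc (Real.log 2) (Real.log X), ‖(wcut W N F t : ℂ) -
        PP Z (fun γ : ℝ => (analyticOrderNatAt F (1 + γ * I) : ℂ) / (γ * I)) t‖ ^ 2 := by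
    intro X hX
    have h5 := subst_exp q (Real.log 2) (Real.log X)
    rw [Real.exp_log two_pos, Real.exp_log hX] at h5
    have h6 : IntegrableOn (fun t => q (Real.exp t)) (Ioc (Real.log 2) (Real.log X)) := by
      refine ((hi (Real.log X)).mono_set (Ioc_subset_Ioc_left hl2.le)).congr_fun (fun t ht => ?_) measurableSet_Ioc
      exact (hfun t ht.1).symm
    refine ⟨h5.1.2 h6, h5.2.trans ?_⟩
    exact setIntegral_congr_fun measurableSet_Ioc fun t ht => hfun t ht.1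
  refine ⟨fun X => ?_, ?_⟩
  · rcases lt_or_ge 0 X with hX | hX
    · exact (hsub X hX).1
    · rw [Ioc_eq_empty (by linarith)]
      exact integrableOn_empty
  · refine (h1.comp Real.tendsto_log_atTop).congr' ?_
    filter_upwards [eventually_gt_atTop (0 : ℝ)] with X hX
    rw [(hsub X hX).2]
    rfl

end Pool.Agent.Helper16.CR
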