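import Mathlib

/-!
# CR-K5a. An abstract squeeze for Cramer's mean square
-/

set_option autoImplicit false

namespace Pool.Agent.Helper16.CR

open Filter Topology MeasureTheory Set

theorem mean_sq_abs {D : ℝ → ℝ → ℝ} (hD0 : ∀ σ τ, 0 ≤ D σ τ) {K : ℝ}
    (hI : ∀ σ : ℝ, 0 < σ → σ ≤ 1 → Integrable (D σ) ∧ ∫ τ, D σ τ ≤ K / σ) (c : ℝ → ℝ) (hc : ∀ γ, 0 ≤ c γ)
    (P : ℝ → Prop) (hc0 : ∀ γ, ¬ P γ → c γ = 0) (hP0 : ¬ P 0)
    (hfin : ∀ R : ℝ, {γ : ℝ | γ ∈ Icc (-R) R ∧ P γ}.Finite)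
    (hwin : ∀ γ : ℝ, γ ≠ 0 → ∃ ε0 : ℝ, 0 < ε0 ∧ ∀ ε : ℝ, 0 < ε → ε ≤ ε0 →
      Tendsto (fun σ : ℝ => σ * ∫ τ in Icc (γ - ε) (γ + ε), D σ τ) (𝓝[>] 0) (𝓝 (Real.pi * c γ)))
    (htail : ∀ e : ℝ, 0 < e → ∃ R : ℝ, 0 < R ∧ ∀ σ : ℝ, 0 < σ → σ ≤ 1 →
      ∫ τ in {τ : ℝ | R < |τ|}, D σ τ ≤ e / σ)
    (hmid : ∀ S : Set ℝ, IsCompact S → (∀ y ∈ S, ¬ P y) → ∃ σ0 C : ℝ, 0 < σ0 ∧ 0 ≤ C ∧
      ∀ σ : ℝ, 0 < σ → σ ≤ σ0 → ∀ y ∈ S, D σ y ≤ C) :
    Summable c ∧ Tendsto (fun σ : ℝ => σ * ∫ τ, D σ τ) (𝓝[>] 0) (𝓝 (Real.pi * ∑' γ, c γ)) := by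
  classical
  have hpi := Real.pi_pos
  have hpos : ∀ᶠ σ : ℝ in 𝓝[>] 0, (0 : ℝ) < σ := self_mem_nhdsWithin
  have hle1 : ∀ᶠ σ : ℝ in 𝓝[>] 0, σ ≤ 1 :=
    (ge_mem_nhds one_pos : ∀ᶠ x : ℝ in 𝓝 0, x ≤ 1).filter_mono nhdsWithin_le_nhds
  have hc00 : c 0 = 0 := hc0 0 hP0
  -- common windows
  have hW : ∀ Z : Finset ℝ, (∀ γ ∈ Z, γ ≠ 0) → ∃ ε : ℝ, 0 < ε ∧
      (∀ γ ∈ Z, ∀ γ' ∈ Z, γ ≠ γ' → 2 * ε < |γ - γ'|) ∧
      ∀ γ ∈ Z, Tendsto (fun σ : ℝ => σ * ∫ τ in Icc (γ - ε) (γ + ε), D σ τ) (𝓝[>] 0) (𝓝 (Real.pi * c γ)) := by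
    intro Z hZ
    have h1 : ∀ᶠ ε : ℝ in 𝓝[>] 0, ∀ γ ∈ Z, ∀ γ' ∈ Z, γ ≠ γ' → 2 * ε < |γ - γ'| := by
      rw [eventually_all_finset]
      intro γ _
      rw [eventually_all_finset]
      intro γ' _
      by_cases h : γ = γ'
      · exact Eventually.of_forall fun ε h' => absurd h h'
      · have h2 : 0 < |γ - γ'| / 2 := by
          have := abs_pos.mpr (sub_ne_zero.mpr h)
          positivity
        have h3 : ∀ᶠ ε : ℝ in 𝓝[>] 0, ε < |γ - γ'| / 2 :=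
          (gt_mem_nhds h2 : ∀ᶠ x : ℝ in 𝓝 0, x < |γ - γ'| / 2).filter_mono nhdsWithin_le_nhds
        filter_upwards [h3] with ε h4 _
        linarith
    have h2 : ∀ᶠ ε : ℝ in 𝓝[>] 0, ∀ γ ∈ Z,
        Tendsto (fun σ : ℝ => σ * ∫ τ in Icc (γ - ε) (γ + ε), D σ τ) (𝓝[>] 0) (𝓝 (Real.pi * c γ)) := by
      rw [eventually_all_finset]
      intro γ hγ
      obtain ⟨ε0, hε0, h3⟩ := hwin γ (hZ γ hγ)
      have h4 : ∀ᶠ ε : ℝ in 𝓝[>] 0, ε ≤ ε0 :=
        (ge_mem_nhds hε0 : ∀ᶠ x : ℝ in 𝓝 0, x ≤ ε0).filter_mono nhdsWithin_le_nhds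
      filter_upwards [hpos, h4] with ε h5 h6
      exact h3 ε h5 h6
    obtain ⟨ε, h3, h4, h5⟩ := (hpos.and (h1.and h2)).exists
    exact ⟨ε, h3, h4, h5⟩
  -- the lower bound
  have hlow : ∀ (Z : Finset ℝ) (ε : ℝ), (∀ γ ∈ Z, ∀ γ' ∈ Z, γ ≠ γ' → 2 * ε < |γ - γ'|) →
      ∀ σ : ℝ, 0 < σ → σ ≤ 1 → ∑ γ ∈ Z, σ * ∫ τ in Icc (γ - ε) (γ + ε), D σ τ ≤ σ * ∫ τ, D σ τ := by
    intro Z ε hdis σ hσ hσ1
    rw [← Finset.mul_sum]
    refine mul_le_mul_of_nonneg_left ?_ hσ.le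
    have hint := (hI σ hσ hσ1).1
    have h1 : ∑ γ ∈ Z, ∫ τ in Icc (γ - ε) (γ + ε), D σ τ =
        ∫ τ, ∑ γ ∈ Z, (Icc (γ - ε) (γ + ε)).indicator (D σ) τ := by
      rw [integral_finsetSum _ fun γ _ => hint.indicator measurableSet_Icc]
      refine Finset.sum_congr rfl fun γ _ => ?_
      rw [integral_indicator measurableSet_Icc]
    rw [h1]
    refine integral_mono (integrable_finsetSum _ fun γ _ => hint.indicator measurableSet_Icc) hint fun τ => ?_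
    by_cases hτ : ∃ γ ∈ Z, τ ∈ Icc (γ - ε) (γ + ε)
    · obtain ⟨γ, hγ, hτγ⟩ := hτ
      refine le_of_eq ?_
      simp only
      rw [Finset.sum_eq_single_of_mem γ hγ]
      · rw [indicator_of_mem hτγ]
      · intro γ' hγ' hne
        rw [indicator_of_notMem]
        intro h2
        have h3 := hdis γ' hγ' γ hγ hne
        have h4 : |γ' - γ| ≤ 2 * ε := by
          rw [abs_le]
          obtain ⟨a1, a2⟩ := hτγ
          obtain ⟨b1, b2⟩ := h2
          constructor <;> linarith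
        linarith
    · push Not at hτ
      simp only
      rw [Finset.sum_eq_zero fun γ hγ => indicator_of_notMem (hτ γ hγ) _]
      exact hD0 σ τ
  have hsumle : ∀ Z : Finset ℝ, ∑ γ ∈ Z, c γ ≤ K / Real.pi := by
    intro Z
    set Z' := Z.erase 0 with hZ'
    have h1 : ∑ γ ∈ Z, c γ = ∑ γ ∈ Z', c γ := by
      rw [hZ', Finset.sum_erase _ hc00]
    obtain ⟨ε, hε, hdis, hlim⟩ := hW Z' fun γ hγ => Finset.ne_of_mem_erase hγ
    have h2 : Tendsto (fun σ : ℝ => ∑ γ ∈ Z', σ * ∫ τ in Icc (γ - ε) (γ + ε), D σ τ) (𝓝[>] 0)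
        (𝓝 (∑ γ ∈ Z', Real.pi * c γ)) := tendsto_finset_sum _ hlim
    have h3 : ∑ γ ∈ Z', Real.pi * c γ ≤ K := by
      refine le_of_tendsto h2 ?_
      filter_upwards [hpos, hle1] with σ h4 h5
      refine (hlow Z' ε hdis σ h4 h5).trans ?_
      have h6 := (hI σ h4 h5).2
      rw [le_div_iff₀ h4] at h6
      linarith
    rw [← Finset.mul_sum] at h3
    rw [h1, le_div_iff₀ hpi]
    linarith
  have hsum : Summable c := summable_of_sum_le hc hsumle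
  refine ⟨hsum, ?_⟩
  rw [tendsto_order]
  constructor
  · -- lower side
    intro x hx
    have h1 : x / Real.pi < ∑' γ, c γ := by
      rw [div_lt_iff₀ hpi]
      linarith
    obtain ⟨Z, hZ⟩ : ∃ Z : Finset ℝ, x / Real.pi < ∑ γ ∈ Z, c γ :=
      (hsum.hasSum.eventually (lt_mem_nhds h1)).exists
    set Z' := Z.erase 0 with hZ'
    have h2 : ∑ γ ∈ Z, c γ = ∑ γ ∈ Z', c γ := by
      rw [hZ', Finset.sum_erase _ hc00]
    obtain ⟨ε, hε, hdis, hlim⟩ := hW Z' fun γ hγ => Finset.ne_of_mem_erase hγ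
    have h3 : Tendsto (fun σ : ℝ => ∑ γ ∈ Z', σ * ∫ τ in Icc (γ - ε) (γ + ε), D σ τ) (𝓝[>] 0)
        (𝓝 (∑ γ ∈ Z', Real.pi * c γ)) := tendsto_finset_sum _ hlim
    have h4 : x < ∑ γ ∈ Z', Real.pi * c γ := by
      rw [← Finset.mul_sum, ← h2]
      rw [div_lt_iff₀ hpi] at hZ
      linarith
    filter_upwards [h3.eventually (lt_mem_nhds h4), hpos, hle1] with σ h5 h6 h7
    exact h5.trans_le (hlow Z' ε hdis σ h6 h7)
  · -- upper side
    intro x hx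
    set e : ℝ := (x - Real.pi * ∑' γ, c γ) / 3 with he
    have he0 : 0 < e := by rw [he]; linarith
    obtain ⟨R, hR, htl⟩ := htail e he0
    set Z : Finset ℝ := (hfin R).toFinset with hZ
    have hZ0 : ∀ γ ∈ Z, γ ≠ 0 := by
      intro γ hγ h0
      rw [hZ, Finite.mem_toFinset, h0] at hγ
      exact hP0 hγ.2
    obtain ⟨ε, hε, hdis, hlim⟩ := hW Z hZ0
    have h1 : Tendsto (fun σ : ℝ => ∑ γ ∈ Z, σ * ∫ τ in Icc (γ - ε) (γ + ε), D σ τ) (𝓝[>] 0)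
        (𝓝 (∑ γ ∈ Z, Real.pi * c γ)) := tendsto_finset_sum _ hlim
    have h2 : ∑ γ ∈ Z, Real.pi * c γ ≤ Real.pi * ∑' γ, c γ := by
      rw [← Finset.mul_sum]
      exact mul_le_mul_of_nonneg_left (hsum.sum_le_tsum Z fun γ _ => hc γ) hpi.le
    set M : Set ℝ := Icc (-R) R \ ⋃ γ ∈ Z, Ioo (γ - ε) (γ + ε) with hM
    have hMc : IsCompact M := by
      rw [hM]
      refine isCompact_Icc.diff ?_
      exact isOpen_biUnion fun γ _ => isOpen_Ioo
    have hMP : ∀ y ∈ M, ¬ P y := by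
      intro y hy hPy
      have h3 : y ∈ Z := by
        rw [hZ, Finite.mem_toFinset]
        exact ⟨hy.1, hPy⟩
      apply hy.2
      rw [mem_iUnion₂]
      exact ⟨y, h3, by constructor <;> linarith⟩
    obtain ⟨σ0, C, hσ0, hC, hMb⟩ := hmid M hMc hMP
    have hMm : MeasurableSet M := hMc.measurableSet
    have hTm : MeasurableSet {τ : ℝ | R < |τ|} := measurableSet_lt measurable_const continuous_abs.measurable
    have hσe : ∀ᶠ σ : ℝ in 𝓝[>] 0, σ ≤ σ0 :=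
      (ge_mem_nhds hσ0 : ∀ᶠ x : ℝ in 𝓝 0, x ≤ σ0).filter_mono nhdsWithin_le_nhds
    have hlimM : Tendsto (fun σ : ℝ => σ * (C * (2 * R))) (𝓝[>] 0) (𝓝 0) := by
      have h3 : Tendsto (fun σ : ℝ => σ * (C * (2 * R))) (𝓝 0) (𝓝 (0 * (C * (2 * R)))) :=
        tendsto_id.mul_const _
      rw [zero_mul] at h3
      exact h3.mono_left nhdsWithin_le_nhds
    filter_upwards [h1.eventually (gt_mem_nhds (show ∑ γ ∈ Z, Real.pi * c γ < (∑ γ ∈ Z, Real.pi * c γ) + e by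
      linarith)), hpos, hle1, hσe, hlimM.eventually (gt_mem_nhds he0)] with σ h3 h4 h5 h6 h7
    have hint := (hI σ h4 h5).1
    have h8 : ∫ τ, D σ τ ≤ (∫ τ in {τ : ℝ | R < |τ|}, D σ τ) +
        (∑ γ ∈ Z, ∫ τ in Icc (γ - ε) (γ + ε), D σ τ) + ∫ τ in M, D σ τ := by
      have e1 : (∫ τ in {τ : ℝ | R < |τ|}, D σ τ) +
          (∑ γ ∈ Z, ∫ τ in Icc (γ - ε) (γ + ε), D σ τ) + ∫ τ in M, D σ τ =
          ∫ τ, ({τ : ℝ | R < |τ|}.indicator (D σ) τ + (∑ γ ∈ Z, (Icc (γ - ε) (γ + ε)).indicator (D σ) τ) +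
            M.indicator (D σ) τ) := by
        have i1 : Integrable (fun τ => {τ : ℝ | R < |τ|}.indicator (D σ) τ) := hint.indicator hTm
        have i2 : Integrable (fun τ => ∑ γ ∈ Z, (Icc (γ - ε) (γ + ε)).indicator (D σ) τ) :=
          integrable_finsetSum _ fun γ _ => hint.indicator measurableSet_Icc
        have i3 : Integrable (fun τ => M.indicator (D σ) τ) := hint.indicator hMm
        have i12 : Integrable (fun τ => {τ : ℝ | R < |τ|}.indicator (D σ) τ +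
            ∑ γ ∈ Z, (Icc (γ - ε) (γ + ε)).indicator (D σ) τ) := i1.add i2
        rw [integral_add i12 i3, integral_add i1 i2,
          integral_finsetSum _ fun γ _ => hint.indicator measurableSet_Icc,
          integral_indicator hTm, integral_indicator hMm]
        congr 2
        refine Finset.sum_congr rfl fun γ _ => ?_
        rw [integral_indicator measurableSet_Icc]
      rw [e1]
      have i1 : Integrable (fun τ => {τ : ℝ | R < |τ|}.indicator (D σ) τ) := hint.indicator hTm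
      have i2 : Integrable (fun τ => ∑ γ ∈ Z, (Icc (γ - ε) (γ + ε)).indicator (D σ) τ) :=
        integrable_finsetSum _ fun γ _ => hint.indicator measurableSet_Icc
      have i3 : Integrable (fun τ => M.indicator (D σ) τ) := hint.indicator hMm
      refine integral_mono hint ((i1.add i2).add i3) fun τ => ?_
      show D σ τ ≤ {τ : ℝ | R < |τ|}.indicator (D σ) τ + (∑ γ ∈ Z, (Icc (γ - ε) (γ + ε)).indicator (D σ) τ) +
            M.indicator (D σ) τ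
      have n1 : 0 ≤ {τ : ℝ | R < |τ|}.indicator (D σ) τ := indicator_nonneg (fun _ _ => hD0 σ _) _
      have n2 : ∀ γ ∈ Z, 0 ≤ (Icc (γ - ε) (γ + ε)).indicator (D σ) τ := fun γ _ =>
        indicator_nonneg (fun _ _ => hD0 σ _) _
      have n2' : 0 ≤ ∑ γ ∈ Z, (Icc (γ - ε) (γ + ε)).indicator (D σ) τ := Finset.sum_nonneg n2
      have n3 : 0 ≤ M.indicator (D σ) τ := indicator_nonneg (fun _ _ => hD0 σ _) _
      by_cases h9 : R < |τ|
      · rw [indicator_of_mem (show τ ∈ {τ : ℝ | R < |τ|} from h9)]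
        linarith
      · by_cases h10 : ∃ γ ∈ Z, τ ∈ Icc (γ - ε) (γ + ε)
        · obtain ⟨γ, hγ, hτγ⟩ := h10
          have h11 : (Icc (γ - ε) (γ + ε)).indicator (D σ) τ ≤
              ∑ γ ∈ Z, (Icc (γ - ε) (γ + ε)).indicator (D σ) τ := Finset.single_le_sum n2 hγ
          rw [indicator_of_mem hτγ] at h11
          linarith
        · push Not at h10 h9
          have h11 : τ ∈ M := by
            refine ⟨abs_le.mp h9, ?_⟩
            rw [mem_iUnion₂]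
            rintro ⟨γ, hγ, hτγ⟩
            exact h10 γ hγ (Ioo_subset_Icc_self hτγ)
          rw [indicator_of_mem h11]
          linarith
    have h9 : ∫ τ in M, D σ τ ≤ C * (2 * R) := by
      have hMsub : M ⊆ Icc (-R) R := diff_subset
      have hvol : (volume M).toReal ≤ 2 * R := by
        have h10 := ENNReal.toReal_mono (by rw [Real.volume_Icc]; exact ENNReal.ofReal_ne_top)
          (measure_mono (μ := volume) hMsub)
        rw [Real.volume_Icc, ENNReal.toReal_ofReal (by linarith)] at h10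
        linarith
      have hfinM : volume M ≠ ⊤ := hMc.measure_lt_top.ne
      calc ∫ τ in M, D σ τ ≤ ∫ _ in M, C :=
            setIntegral_mono_on hint.integrableOn (integrableOn_const hfinM) hMm fun y hy => hMb σ h4 h6 y hy
        _ = (volume M).toReal * C := by
            rw [setIntegral_const, smul_eq_mul]
            rfl
        _ ≤ 2 * R * C := mul_le_mul_of_nonneg_right hvol hC
        _ = C * (2 * R) := by ring
    have h10 := htl σ h4 h5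
    rw [le_div_iff₀ h4] at h10
    rw [← Finset.mul_sum] at h3
    have h11 : σ * ∫ τ, D σ τ ≤ σ * ((∫ τ in {τ : ℝ | R < |τ|}, D σ τ) +
        (∑ γ ∈ Z, ∫ τ in Icc (γ - ε) (γ + ε), D σ τ) + ∫ τ in M, D σ τ) := mul_le_mul_of_nonneg_left h8 h4.le
    have h12 : σ * ∫ τ in M, D σ τ ≤ σ * (C * (2 * R)) := mul_le_mul_of_nonneg_left h9 h4.le
    have h13 : 3 * e = x - Real.pi * ∑' γ, c γ := by rw [he]; ring
    have h14 : σ * ((∫ τ in {τ : ℝ | R < |τ|}, D σ τ) +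
        (∑ γ ∈ Z, ∫ τ in Icc (γ - ε) (γ + ε), D σ τ) + ∫ τ in M, D σ τ) =
        (∫ τ in {τ : ℝ | R < |τ|}, D σ τ) * σ + σ * (∑ γ ∈ Z, ∫ τ in Icc (γ - ε) (γ + ε), D σ τ) +
          σ * ∫ τ in M, D σ τ := by ring
    rw [h14] at h11
    linarith

end Pool.Agent.Helper16.CR
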