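import Pool.Agent.Helper76.CR.K5b
import Pool.Agent.Helper16.CR.K5a
import Pool.Agent.Helper46.CR.C6
import Pool.Agent.Helper29.CR.K3
import Pool.Agent.Helper81.CR.K4
import Pool.Agent.Helper16.OM.Count

/-!
CR-K5. The exact mean square of `V'`.
-/

set_option autoImplicit false

namespace Pool.Agent.Helper16.CR

open Complex Filter Topology MeasureTheory Set Metric
open Pool.Agent.Helper13.Bsd Pool.Agent.Helper7.GW Pool.Agent.Helper58.BSD Pool.Agent.Helper29.MS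
open Pool.Agent.Helper16.OM (Fac)

variable {v : ℝ → ℝ} {G : ℂ → ℂ} {A a η B c : ℝ} {k : ℕ}

/-- K5. the exact mean square of `V'` -/
theorem mean_sq (hF : Frame v G A a η B c k) {L : ℂ → ℂ} (hL : Branch v G a L) (mm : ℝ → ℕ) (hmm : Fac G mm) :
    Summable (fun γ : ℝ => if γ = 0 then 0 else (mm γ : ℝ) ^ 2 / γ ^ 2) ∧
    Tendsto (fun σ : ℝ => σ * ∫ τ : ℝ, ‖deriv (VV L (kap G)) ((σ : ℂ) + (τ : ℂ) * I)‖ ^ 2) (𝓝[>] 0)
      (𝓝 (Real.pi * ∑' γ : ℝ, if γ = 0 then 0 else (mm γ : ℝ) ^ 2 / γ ^ 2)) := by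
  have hη := hF.setup.hη
  have hopen : IsOpen {s : ℂ | -η < s.re} := isOpen_lt continuous_const continuous_re
  have hGc : ContinuousAt G 0 := by
    refine (hF.setup.diff.differentiableAt (hopen.mem_nhds ?_)).continuousAt
    show -η < (0 : ℂ).re
    rw [zero_re]
    linarith
  obtain ⟨K, -, hK⟩ := h2_deriv hF hL
  refine mean_sq_abs (D := fun σ τ => ‖deriv (VV L (kap G)) ((σ : ℂ) + (τ : ℂ) * I)‖ ^ 2)
    (fun σ τ => sq_nonneg _) (K := K) hK (fun γ : ℝ => if γ = 0 then 0 else (mm γ : ℝ) ^ 2 / γ ^ 2) ?_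
    (fun γ => G ((γ : ℂ) * I) = 0) ?_ ?_ (fun R => hmm.fin hGc hF.zero R) ?_ (h2_tail hF hL) ?_
  · intro γ
    split_ifs
    · exact le_rfl
    · positivity
  · intro γ hγ
    split_ifs with h
    · rfl
    · have h1 : mm γ = 0 := by
        by_contra h2
        exact hγ (hmm.zero h h2)
      rw [h1]
      simp
  · rw [ofReal_zero, zero_mul]
    exact hF.zero
  · intro γ hγ
    obtain ⟨g, hg, hg0, hG⟩ := hmm γ hγ
    obtain ⟨ε0, hε0, h1⟩ := window_V hF hL γ hγ (mm γ) g hg hg0 hG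
    refine ⟨ε0, hε0, fun ε h2 h3 => ?_⟩
    simp only [if_neg hγ]
    exact h1 ε h2 h3
  · intro S hS h0
    obtain ⟨σ0, C, hσ0, hC, h1⟩ := middle hF hL S hS h0
    refine ⟨σ0, C ^ 2, hσ0, sq_nonneg _, fun σ h2 h3 y hy => ?_⟩
    exact pow_le_pow_left₀ (norm_nonneg _) (h1 σ h2 h3 y hy) 2

end Pool.Agent.Helper16.CR
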