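import Pool.Agent.Helper16.CR.C8r
import Pool.Agent.Helper16.CR.K5r
import Pool.Agent.Helper91.CR.K1

/-!
CR-K6. The exact mean square at order zero (Karamata).
-/

set_option autoImplicit false

namespace Pool.Agent.Helper16.CR

open Complex Filter Topology MeasureTheory Set Metric
open Pool.Agent.Helper13.Bsd Pool.Agent.Helper7.GW Pool.Agent.Helper58.BSD Pool.Agent.Helper29.MS
open Pool.Agent.Helper16.OM (Fac)

variable {v : ℝ → ℝ} {G : ℂ → ℂ} {A a η B c : ℝ} {k : ℕ}

theorem exact_zero (hF : Frame v G A a η B c k) (mm : ℝ → ℕ) (hmm : Fac G mm) :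
    Summable (fun γ : ℝ => if γ = 0 then 0 else (mm γ : ℝ) ^ 2 / γ ^ 2) ∧
    Tendsto (fun T : ℝ => (1 / T) * ∫ t in Ioc 0 T, (t * (v t - kap G)) ^ 2) atTop
      (𝓝 (∑' γ : ℝ, if γ = 0 then 0 else (mm γ : ℝ) ^ 2 / γ ^ 2)) := by
  obtain ⟨L, hL⟩ := exists_branch hF
  obtain ⟨hmeas, hpl⟩ := planch_deriv hF hL
  obtain ⟨hsum, hlim⟩ := mean_sq hF hL mm hmm
  refine ⟨hsum, ?_⟩
  set Sg : ℝ := ∑' γ : ℝ, if γ = 0 then 0 else (mm γ : ℝ) ^ 2 / γ ^ 2 with hSg
  have hpi := Real.pi_pos
  refine karamata (f := fun t => (t * (v t - kap G)) ^ 2) (fun t => sq_nonneg _) hmeas Sg ?_ ?_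
  · intro s hs
    have h1 := (hpl (s / 2) (by positivity)).1
    have e : 2 * (s / 2) = s := by ring
    rw [e] at h1
    exact h1
  · have h1 : Tendsto (fun s : ℝ => s / 2) (𝓝[>] 0) (𝓝[>] 0) := by
      refine tendsto_nhdsWithin_iff.mpr ⟨?_, ?_⟩
      · have h2 : Tendsto (fun s : ℝ => s / 2) (𝓝 0) (𝓝 (0 / 2)) := (continuous_id.div_const 2).tendsto 0
        rw [zero_div] at h2
        exact h2.mono_left nhdsWithin_le_nhds
      · filter_upwards [self_mem_nhdsWithin] with s hs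
        have hs' : 0 < s := hs
        show 0 < s / 2
        positivity
    have h2 := (hlim.comp h1).const_mul (1 / Real.pi)
    have e1 : 1 / Real.pi * (Real.pi * Sg) = Sg := by field_simp
    rw [e1] at h2
    refine h2.congr' ?_
    filter_upwards [self_mem_nhdsWithin] with s hs
    have hs' : 0 < s := hs
    have h3 := (hpl (s / 2) (by positivity)).2
    simp only [Function.comp]
    rw [← h3]
    have e : 2 * (s / 2) = s := by ring
    rw [e]
    field_simp

end Pool.Agent.Helper16.CR
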