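import Mathlib

/-!
# CR-V3c. Perturbation of a mean square
-/

set_option autoImplicit false

namespace Pool.Agent.Helper16.CR

open Filter Topology MeasureTheory Set

theorem perturb {f d : ℝ → ℝ} {S : ℝ} (hf : ∀ T : ℝ, IntegrableOn (fun t => f t ^ 2) (Ioc 1 T))
    (hd : ∀ T : ℝ, IntegrableOn (fun t => d t ^ 2) (Ioc 1 T))
    (hfd : ∀ T : ℝ, IntegrableOn (fun t => (f t + d t) ^ 2) (Ioc 1 T))
    (hlf : Tendsto (fun T : ℝ => (1 / T) * ∫ t in Ioc 1 T, f t ^ 2) atTop (𝓝 S))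
    (hld : Tendsto (fun T : ℝ => (1 / T) * ∫ t in Ioc 1 T, d t ^ 2) atTop (𝓝 0)) :
    Tendsto (fun T : ℝ => (1 / T) * ∫ t in Ioc 1 T, (f t + d t) ^ 2) atTop (𝓝 S) := by
  have hS0 : 0 ≤ S := by
    refine ge_of_tendsto hlf ?_
    filter_upwards [eventually_gt_atTop (0 : ℝ)] with T hT
    exact mul_nonneg (by positivity) (setIntegral_nonneg measurableSet_Ioc fun t _ => sq_nonneg _)
  rw [Metric.tendsto_atTop']
  intro e he
  set θ : ℝ := e / (3 * (S + 1)) with hθ
  have hθ0 : 0 < θ := by rw [hθ]; positivity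
  have h1 : ∀ᶠ T : ℝ in atTop, |(1 / T) * (∫ t in Ioc 1 T, f t ^ 2) - S| < min (e / 3) 1 := by
    have h := (Metric.tendsto_nhds.mp hlf) (min (e / 3) 1) (by positivity)
    simpa [Real.dist_eq] using h
  have h2 : ∀ᶠ T : ℝ in atTop, (1 + 1 / θ) * ((1 / T) * ∫ t in Ioc 1 T, d t ^ 2) < e / 3 := by
    have h := hld.const_mul (1 + 1 / θ)
    rw [mul_zero] at h
    exact h.eventually (gt_mem_nhds (by positivity))
  have h3 : ∀ᶠ T : ℝ in atTop, dist ((1 / T) * ∫ t in Ioc 1 T, (f t + d t) ^ 2) S < e := by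
    filter_upwards [h1, h2, eventually_gt_atTop (0 : ℝ)] with T h1 h2 hT
    set a := (1 / T) * ∫ t in Ioc 1 T, f t ^ 2 with ha
    set b := (1 / T) * ∫ t in Ioc 1 T, d t ^ 2 with hb
    have hT' : 0 ≤ 1 / T := by positivity
    have hup : (1 / T) * ∫ t in Ioc 1 T, (f t + d t) ^ 2 ≤ (1 + θ) * a + (1 + 1 / θ) * b := by
      have h4 : ∫ t in Ioc 1 T, (f t + d t) ^ 2 ≤ ∫ t in Ioc 1 T, ((1 + θ) * f t ^ 2 + (1 + 1 / θ) * d t ^ 2) := by
        refine setIntegral_mono_on (hfd T) (((hf T).const_mul _).add ((hd T).const_mul _)) measurableSet_Ioc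
          fun t _ => ?_
        have h5 : 0 ≤ (θ * f t - d t) ^ 2 / θ := by positivity
        have h6 : (θ * f t - d t) ^ 2 / θ = θ * f t ^ 2 - 2 * (f t * d t) + 1 / θ * d t ^ 2 := by
          field_simp
          ring
        rw [h6] at h5
        nlinarith
      rw [integral_add ((hf T).const_mul _) ((hd T).const_mul _), integral_const_mul, integral_const_mul] at h4
      calc (1 / T) * ∫ t in Ioc 1 T, (f t + d t) ^ 2 ≤ (1 / T) * ((1 + θ) * (∫ t in Ioc 1 T, f t ^ 2) +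
            (1 + 1 / θ) * ∫ t in Ioc 1 T, d t ^ 2) := mul_le_mul_of_nonneg_left h4 hT'
        _ = (1 + θ) * a + (1 + 1 / θ) * b := by rw [ha, hb]; ring
    have hlo : (1 - θ) * a - (1 / θ) * b ≤ (1 / T) * ∫ t in Ioc 1 T, (f t + d t) ^ 2 := by
      have h4 : ∫ t in Ioc 1 T, ((1 - θ) * f t ^ 2 - (1 / θ) * d t ^ 2) ≤ ∫ t in Ioc 1 T, (f t + d t) ^ 2 := by
        refine setIntegral_mono_on (((hf T).const_mul _).sub ((hd T).const_mul _)) (hfd T) measurableSet_Ioc
          fun t _ => ?_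
        have h5 : 0 ≤ (θ * f t + d t) ^ 2 / θ := by positivity
        have h6 : (θ * f t + d t) ^ 2 / θ = θ * f t ^ 2 + 2 * (f t * d t) + 1 / θ * d t ^ 2 := by
          field_simp
          ring
        rw [h6] at h5
        nlinarith [sq_nonneg (d t)]
      rw [integral_sub ((hf T).const_mul _) ((hd T).const_mul _), integral_const_mul, integral_const_mul] at h4
      calc (1 - θ) * a - (1 / θ) * b = (1 / T) * ((1 - θ) * (∫ t in Ioc 1 T, f t ^ 2) -
            (1 / θ) * ∫ t in Ioc 1 T, d t ^ 2) := by rw [ha, hb]; ring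
        _ ≤ _ := mul_le_mul_of_nonneg_left h4 hT'
    have hb0 : 0 ≤ b := mul_nonneg hT' (setIntegral_nonneg measurableSet_Ioc fun t _ => sq_nonneg _)
    have ha1 : a < S + 1 := by
      have := (abs_lt.mp (h1.trans_le (min_le_right _ _))).2
      linarith
    have ha0 : 0 ≤ a := mul_nonneg hT' (setIntegral_nonneg measurableSet_Ioc fun t _ => sq_nonneg _)
    have hθa : θ * a ≤ e / 3 := by
      have h5 : θ * a ≤ θ * (S + 1) := mul_le_mul_of_nonneg_left ha1.le hθ0.le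
      have h6 : θ * (S + 1) = e / 3 := by
        rw [hθ]
        field_simp
      linarith
    have h5 := abs_lt.mp (h1.trans_le (min_le_left _ _))
    have h6 : (1 / θ) * b ≤ (1 + 1 / θ) * b := by nlinarith
    rw [Real.dist_eq, abs_lt]
    constructor <;> linarith [h5.1, h5.2]
  obtain ⟨T0, hT0⟩ := eventually_atTop.mp h3
  exact ⟨T0, fun T hT => hT0 T hT.le⟩

theorem shift_start {q : ℝ → ℝ} {S a b : ℝ} (hq : ∀ T : ℝ, IntegrableOn q (Ioc a T)) (hab : a ≤ b)
    (h : Tendsto (fun T : ℝ => (1 / T) * ∫ t in Ioc a T, q t) atTop (𝓝 S)) :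
    Tendsto (fun T : ℝ => (1 / T) * ∫ t in Ioc b T, q t) atTop (𝓝 S) := by
  have h1 : Tendsto (fun T : ℝ => (1 / T) * ∫ t in Ioc a b, q t) atTop (𝓝 0) := by
    have h2 : Tendsto (fun T : ℝ => 1 / T) atTop (𝓝 0) := by
      simp_rw [one_div]
      exact tendsto_inv_atTop_zero
    have h3 := h2.mul_const (∫ t in Ioc a b, q t)
    rwa [zero_mul] at h3
  have h2 := h.sub h1
  rw [sub_zero] at h2
  refine h2.congr' ?_
  filter_upwards [eventually_ge_atTop b] with T hT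
  have e1 : Ioc a T = Ioc a b ∪ Ioc b T := (Ioc_union_Ioc_eq_Ioc hab hT).symm
  have e2 : ∫ t in Ioc a T, q t = (∫ t in Ioc a b, q t) + ∫ t in Ioc b T, q t := by
    rw [e1]
    refine setIntegral_union ?_ measurableSet_Ioc (hq b) ((hq T).mono_set ?_)
    · exact Ioc_disjoint_Ioc_of_le le_rfl
    · exact Ioc_subset_Ioc_left hab
  rw [e2]
  ring

theorem shift_back {q : ℝ → ℝ} {S a b : ℝ} (hq : ∀ T : ℝ, IntegrableOn q (Ioc a T)) (hab : a ≤ b)
    (h : Tendsto (fun T : ℝ => (1 / T) * ∫ t in Ioc b T, q t) atTop (𝓝 S)) :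
    Tendsto (fun T : ℝ => (1 / T) * ∫ t in Ioc a T, q t) atTop (𝓝 S) := by
  have h1 : Tendsto (fun T : ℝ => (1 / T) * ∫ t in Ioc a b, q t) atTop (𝓝 0) := by
    have h2 : Tendsto (fun T : ℝ => 1 / T) atTop (𝓝 0) := by
      simp_rw [one_div]
      exact tendsto_inv_atTop_zero
    have h3 := h2.mul_const (∫ t in Ioc a b, q t)
    rwa [zero_mul] at h3
  have h2 := h.add h1
  rw [add_zero] at h2
  refine h2.congr' ?_
  filter_upwards [eventually_ge_atTop b] with T hT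
  have e1 : Ioc a T = Ioc a b ∪ Ioc b T := (Ioc_union_Ioc_eq_Ioc hab hT).symm
  have e2 : ∫ t in Ioc a T, q t = (∫ t in Ioc a b, q t) + ∫ t in Ioc b T, q t := by
    rw [e1]
    refine setIntegral_union ?_ measurableSet_Ioc (hq b) ((hq T).mono_set ?_)
    · exact Ioc_disjoint_Ioc_of_le le_rfl
    · exact Ioc_subset_Ioc_left hab
  rw [e2]
  ring

/-- a bounded integral has mean zero -/
theorem mean_zero {q : ℝ → ℝ} (hq0 : ∀ t, 0 ≤ q t) (M a : ℝ) (h : ∀ T : ℝ, ∫ t in Ioc a T, q t ≤ M) :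
    Tendsto (fun T : ℝ => (1 / T) * ∫ t in Ioc a T, q t) atTop (𝓝 0) := by
  have h2 : Tendsto (fun T : ℝ => 1 / T * M) atTop (𝓝 0) := by
    have h3 : Tendsto (fun T : ℝ => 1 / T) atTop (𝓝 0) := by
      simp_rw [one_div]
      exact tendsto_inv_atTop_zero
    have h4 := h3.mul_const M
    rwa [zero_mul] at h4
  refine squeeze_zero' ?_ ?_ h2
  · filter_upwards [eventually_gt_atTop (0 : ℝ)] with T hT
    exact mul_nonneg (by positivity) (setIntegral_nonneg measurableSet_Ioc fun t _ => hq0 t)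
  · filter_upwards [eventually_gt_atTop (0 : ℝ)] with T hT
    exact mul_le_mul_of_nonneg_left (h T) (by positivity)

end Pool.Agent.Helper16.CR
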