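import Pool.Agent.Helper16.CR.K6r
import Pool.Agent.Helper16.CR.Pert
import Pool.Agent.Helper16.OM.Order
import Pool.Agent.Helper29.MS.Red

/-!
CR-K7. The exact mean square at order `r`.
-/

set_option autoImplicit false

namespace Pool.Agent.Helper16.CR

open Complex Filter Topology MeasureTheory Set Metric
open Pool.Agent.Helper13.Bsd Pool.Agent.Helper7.GW Pool.Agent.Helper58.BSD Pool.Agent.Helper29.MS
open Pool.Agent.Helper16.OM (Fac EinL2_bounds)

variable {v : ℝ → ℝ} {G : ℂ → ℂ} {A a η B c : ℝ} {k : ℕ}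

private theorem k7_lapInt (h : Grow v A a) {x : ℝ} (hx : a < x) : LapInt v x := by
  unfold LapInt
  have h1 : IntegrableOn (fun t : ℝ => A * Real.exp (-(x - a) * t)) (Ioi (0 : ℝ)) :=
    (exp_neg_integrableOn_Ioi 0 (sub_pos.2 hx)).const_mul A
  refine Integrable.mono' h1 ?_ ?_
  · exact (h.meas.mul (Real.measurable_exp.comp (measurable_const.mul measurable_id))).aestronglyMeasurable
  · rw [ae_restrict_iff' measurableSet_Ioi]
    refine Eventually.of_forall fun t ht => ?_
    have ht0 : 0 < t := ht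
    rw [norm_mul, Real.norm_eq_abs, Real.norm_eq_abs, abs_of_pos (Real.exp_pos _)]
    calc |v t| * Real.exp (-x * t) ≤ (A * Real.exp (a * t)) * Real.exp (-x * t) :=
          mul_le_mul_of_nonneg_right (h.bd t ht0) (Real.exp_pos _).le
      _ = A * Real.exp (-(x - a) * t) := by
          rw [mul_assoc, ← Real.exp_add]
          congr 2
          ring

/-- local boundedness gives integrability of squares -/
theorem sq_int_of_grow {u : ℝ → ℝ} {A a : ℝ} (h : Grow u A a) (T : ℝ) :
    IntegrableOn (fun t => (t * u t) ^ 2) (Ioc 1 T) := by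
  have hm : Measurable (fun t => (t * u t) ^ 2) := (measurable_id.mul h.meas).pow_const 2
  apply Measure.integrableOn_of_bounded (M := (|T| * (A * Real.exp (a * |T|))) ^ 2) (by simp)
    hm.aestronglyMeasurable
  filter_upwards [ae_restrict_mem measurableSet_Ioc] with t ht
  have ht0 : 0 < t := by linarith [ht.1]
  have htT : t ≤ |T| := ht.2.trans (le_abs_self T)
  have h1 := h.bd t ht0
  have hA := h.hA
  have ha := h.ha
  rw [Real.norm_eq_abs, abs_of_nonneg (sq_nonneg _), ← sq_abs (t * u t), abs_mul, abs_of_pos ht0]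
  apply pow_le_pow_left₀ (by positivity)
  apply mul_le_mul htT (h1.trans _) (abs_nonneg _) (abs_nonneg _)
  apply mul_le_mul_of_nonneg_left _ hA
  apply Real.exp_le_exp.mpr
  exact mul_le_mul_of_nonneg_left htT ha

theorem exact_order (hS : Setup v G A a η) (r : ℕ) (g : ℝ) (hg0 : 0 < g)
    (hg : Tendsto (fun y : ℝ => ‖G (y : ℂ)‖ / y ^ r) (𝓝[>] 0) (𝓝 g))
    (hrh : ∀ s : ℂ, 0 < s.re → G s ≠ 0)
    (hgr : ∀ s : ℂ, -η < s.re → ‖G s‖ ≤ B * (1 + ‖s‖) ^ k)
    (hr : ∀ s : ℂ, c ≤ s.re → ‖s * Lap v s‖ ≤ B) (mm : ℝ → ℕ) (hmm : Fac G mm) :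
    Summable (fun γ : ℝ => if γ = 0 then 0 else (mm γ : ℝ) ^ 2 / γ ^ 2) ∧
    (∀ T : ℝ, IntegrableOn
      (fun t => (t * (v t - r * Real.log t - (r * Real.eulerMascheroniConstant - Real.log g))) ^ 2) (Ioc 1 T)) ∧
    Tendsto (fun T : ℝ => (1 / T) * ∫ t in Ioc 1 T,
      (t * (v t - r * Real.log t - (r * Real.eulerMascheroniConstant - Real.log g))) ^ 2) atTop
      (𝓝 (∑' γ : ℝ, if γ = 0 then 0 else (mm γ : ℝ) ^ 2 / γ ^ 2)) := by
  obtain ⟨G1, hG1, hfac, hG10⟩ := factor_order hS r g hg0 hg
  have hS0 := setup_reduce hS r G1 hG1 hfac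
  have hη := hS.hη
  have ha := hS.grow.ha
  have h0 : (fun s => G1 s * (1 + s) ^ r) (0 : ℂ) ≠ 0 := by
    simp only [add_zero, one_pow, mul_one]
    rw [← norm_pos_iff, hG10]
    exact hg0
  have hkap : kap (fun s => G1 s * (1 + s) ^ r) = -Real.log g := by
    unfold kap
    simp only [add_zero, one_pow, mul_one]
    rw [hG10]
  obtain ⟨C, hC0, hC⟩ := lap_ein_bdd
  have hB0 : 0 ≤ B := by
    have h1 := hgr 0 (by rw [zero_re]; linarith)
    rw [norm_zero, add_zero, one_pow, mul_one] at h1
    exact (norm_nonneg _).trans h1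
  -- the bound on the closed ball
  obtain ⟨M, hM⟩ : ∃ M : ℝ, ∀ s ∈ closedBall (0 : ℂ) (η / 2), ‖G1 s * (1 + s) ^ r‖ ≤ M := by
    have hsub : closedBall (0 : ℂ) (η / 2) ⊆ {s : ℂ | -η < s.re} := by
      intro s hs
      rw [mem_closedBall_zero_iff] at hs
      have h1 := abs_re_le_norm s
      have h2 := neg_abs_le s.re
      show -η < s.re
      linarith
    have hcont : ContinuousOn (fun s => G1 s * (1 + s) ^ r) (closedBall (0 : ℂ) (η / 2)) :=
      (hG1.continuousOn.mono hsub).mul (by fun_prop)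
    exact (isCompact_closedBall (0 : ℂ) (η / 2)).exists_bound_of_continuousOn hcont
  have hr0 : (0 : ℝ) ≤ r := Nat.cast_nonneg r
  have hq0 : 0 ≤ B * (2 / η) ^ r := by positivity
  have hrC : 0 ≤ (r : ℝ) * C := by positivity
  set B' : ℝ := 1 + |M| + B * (2 / η) ^ r + (B + r * C) with hB'
  have habs := abs_nonneg M
  have hF : Frame (fun t => v t - r * ein t) (fun s => G1 s * (1 + s) ^ r) (A + r) (a + 1) η B'
      (max c (a + 2)) (k + r) := by
    refine ⟨hS0, h0, ?_, by rw [hB']; linarith, ?_, ?_, ?_, ?_⟩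
    · intro s hs
      have h1 := hrh s hs
      have h2 := hfac s (by linarith)
      rw [h2] at h1
      have h3 : (1 : ℂ) + s ≠ 0 := by
        intro h
        have := congrArg Complex.re h
        simp at this
        linarith
      exact mul_ne_zero (right_ne_zero_of_mul h1) (pow_ne_zero _ h3)
    · intro s hs
      have hge : (1 : ℝ) ≤ (1 + ‖s‖) ^ (k + r) :=
        one_le_pow₀ (by linarith [norm_nonneg s])
      by_cases hb : ‖s‖ ≤ η / 2
      · have h1 := hM s (by rw [mem_closedBall_zero_iff]; exact hb)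
        have h2 : M ≤ B' := by
          have := le_abs_self M
          rw [hB']
          linarith
        have h3 : 0 ≤ B' := by rw [hB']; linarith
        calc ‖G1 s * (1 + s) ^ r‖ ≤ B' * 1 := by linarith
          _ ≤ B' * (1 + ‖s‖) ^ (k + r) := mul_le_mul_of_nonneg_left hge h3
      · push Not at hb
        have hs0 : 0 < ‖s‖ := by linarith
        have h1 : ‖G1 s‖ ≤ B * (1 + ‖s‖) ^ k * (2 / η) ^ r := by
          have h2 := hgr s hs
          rw [hfac s hs, norm_mul, norm_pow] at h2
          have h3 : 1 ≤ ‖s‖ ^ r * (2 / η) ^ r := by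
            rw [← mul_pow]
            apply one_le_pow₀
            rw [mul_div_assoc', le_div_iff₀ hη]
            linarith
          calc ‖G1 s‖ = ‖G1 s‖ * 1 := (mul_one _).symm
            _ ≤ ‖G1 s‖ * (‖s‖ ^ r * (2 / η) ^ r) := mul_le_mul_of_nonneg_left h3 (norm_nonneg _)
            _ = ‖s‖ ^ r * ‖G1 s‖ * (2 / η) ^ r := by ring
            _ ≤ B * (1 + ‖s‖) ^ k * (2 / η) ^ r :=
                mul_le_mul_of_nonneg_right h2 (by positivity)
        have h4 : ‖(1 + s) ^ r‖ ≤ (1 + ‖s‖) ^ r := by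
          rw [norm_pow]
          apply pow_le_pow_left₀ (norm_nonneg _)
          calc ‖1 + s‖ ≤ ‖(1 : ℂ)‖ + ‖s‖ := norm_add_le _ _
            _ = 1 + ‖s‖ := by rw [norm_one]
        rw [norm_mul]
        calc ‖G1 s‖ * ‖(1 + s) ^ r‖ ≤ (B * (1 + ‖s‖) ^ k * (2 / η) ^ r) * (1 + ‖s‖) ^ r :=
              mul_le_mul h1 h4 (norm_nonneg _) (by positivity)
          _ = B * (2 / η) ^ r * (1 + ‖s‖) ^ (k + r) := by rw [pow_add]; ring
          _ ≤ B' * (1 + ‖s‖) ^ (k + r) := by
              apply mul_le_mul_of_nonneg_right _ (by positivity)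
              rw [hB']
              linarith
    · have := le_max_right c (a + 2)
      linarith
    · have := le_max_right c (a + 2)
      linarith
    · intro s hs
      have hs1 : c ≤ s.re := (le_max_left _ _).trans hs
      have hs2 : a + 2 ≤ s.re := (le_max_right _ _).trans hs
      have hw1 : a < s.re := by linarith
      have hw0 : 0 < s.re := by linarith
      have e1 : Lap (fun t => v t - r * ein t) s = Lap v s - r * Lap ein s := by
        have hm : Measurable fun t => (r : ℝ) * ein t := measurable_const.mul measurable_ein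
        rw [Lap_sub hS.grow.meas hm
          (k7_lapInt hS.grow hw1) ((lapInt_ein hw0).const_mul _), Lap_const_mul]
        push_cast
        rfl
      have e2 : s * Lap (fun t => v t - r * ein t) s = s * Lap v s - r * (s * Lap ein s) := by
        rw [e1]; ring
      rw [e2]
      have h1 := hr s hs1
      have h2 := hC s (by linarith)
      calc ‖s * Lap v s - r * (s * Lap ein s)‖ ≤ ‖s * Lap v s‖ + ‖(r : ℂ) * (s * Lap ein s)‖ :=
            norm_sub_le _ _
        _ ≤ B + r * C := by
            rw [norm_mul (r : ℂ), Complex.norm_natCast]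
            exact add_le_add h1 (mul_le_mul_of_nonneg_left h2 hr0)
        _ ≤ B' := by
            rw [hB']
            linarith
  -- the factorisation
  have hopen : IsOpen {s : ℂ | -η < s.re} := isOpen_lt continuous_const continuous_re
  have hmem : ∀ μ : ℝ, (μ * I : ℂ) ∈ {s : ℂ | -η < s.re} := by
    intro μ
    show -η < (μ * I : ℂ).re
    simp
    linarith
  have hmm0 : Fac (fun s => G1 s * (1 + s) ^ r) mm := by
    intro μ hμ
    obtain ⟨gm, hga, hgm0, hgeq⟩ := hmm μ hμ
    have hμI : (μ * I : ℂ) ≠ 0 := mul_ne_zero (by exact_mod_cast hμ) I_ne_zero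
    have h1I : (1 + μ * I : ℂ) ≠ 0 := by
      intro h1
      have := congrArg Complex.re h1
      simp at this
    refine ⟨fun w => gm w * (1 + w) ^ r / w ^ r, ?_, ?_, ?_⟩
    · refine AnalyticAt.div (hga.mul ?_) ?_ (pow_ne_zero _ hμI)
      · exact (analyticAt_const.add analyticAt_id).pow r
      · exact analyticAt_id.pow r
    · exact div_ne_zero (mul_ne_zero hgm0 (pow_ne_zero _ h1I)) (pow_ne_zero _ hμI)
    · filter_upwards [hgeq, hopen.mem_nhds (hmem μ), isOpen_ne.mem_nhds hμI] with w h1 h2 h3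
      have h4 := hfac w h2
      have h5 : w ^ r ≠ 0 := pow_ne_zero _ h3
      have h6 : G1 w = (w - μ * I) ^ mm μ * gm w / w ^ r := by
        rw [eq_div_iff h5, ← h1, h4]
        ring
      show G1 w * (1 + w) ^ r = _
      rw [h6]
      ring
  obtain ⟨hsum, hlim⟩ := exact_zero hF mm hmm0
  -- the perturbation
  set f : ℝ → ℝ := fun t => t * ((v t - r * ein t) - kap (fun s => G1 s * (1 + s) ^ r)) with hf
  set d : ℝ → ℝ := fun t => t * (r * (ein t - Real.log t - Real.eulerMascheroniConstant)) with hd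
  have hfd : ∀ t, f t + d t = t * (v t - r * Real.log t - (r * Real.eulerMascheroniConstant - Real.log g)) := by
    intro t
    simp only [hf, hd, hkap]
    ring
  obtain ⟨K0, hK0, hK0b⟩ := cramer_zero hF
  have hf2 : ∀ T : ℝ, IntegrableOn (fun t => f t ^ 2) (Ioc 1 T) := by
    intro T
    have h1 := (hK0b (max T 1) (le_max_right _ _)).1
    refine h1.mono_set ?_
    intro t ht
    exact ⟨by linarith [ht.1], ht.2.trans (le_max_left _ _)⟩
  have hf0 : ∀ T : ℝ, IntegrableOn (fun t => f t ^ 2) (Ioc 0 T) := by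
    intro T
    have h1 := (hK0b (max T 1) (le_max_right _ _)).1
    exact h1.mono_set (Ioc_subset_Ioc_right (le_max_left _ _))
  have hdm : Measurable d := by
    have : Measurable (fun t => (r : ℝ) * (ein t - Real.log t - Real.eulerMascheroniConstant)) :=
      ((measurable_ein.sub Real.measurable_log).sub measurable_const).const_mul _
    exact measurable_id.mul this
  have hdb : ∀ t : ℝ, 1 < t → |d t| ≤ r * (t * Real.exp (-t)) := by
    intro t ht
    obtain ⟨h6, h7⟩ := EinL2_bounds ht.le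
    have ht0 : 0 < t := by linarith
    simp only [hd]
    rw [abs_mul, abs_mul, abs_of_pos ht0, abs_of_nonneg hr0, abs_of_nonneg h6]
    calc t * (r * (ein t - Real.log t - Real.eulerMascheroniConstant)) ≤ t * (r * Real.exp (-t)) :=
          mul_le_mul_of_nonneg_left (mul_le_mul_of_nonneg_left h7 hr0) ht0.le
      _ = _ := by ring
  have hdb2 : ∀ t : ℝ, 1 < t → d t ^ 2 ≤ (r : ℝ) ^ 2 * Real.exp (-t) := by
    intro t ht
    have ht0 : 0 < t := by linarith
    have h1 := hdb t ht
    have h2 : d t ^ 2 ≤ (r * (t * Real.exp (-t))) ^ 2 := by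
      rw [← sq_abs (d t)]
      exact pow_le_pow_left₀ (abs_nonneg _) h1 2
    have h3 : t ^ 2 * Real.exp (-t) ≤ 1 := by
      have h4 : t ^ 2 ≤ Real.exp t := by
        have h5 := Real.quadratic_le_exp_of_nonneg ht0.le
        have h6 : t ^ 2 ≤ Real.exp t := by
          have h7 := Real.add_one_le_exp (t / 2)
          have h8 : t ≤ Real.exp (t / 2) := by
            have h9 := Real.quadratic_le_exp_of_nonneg (show (0 : ℝ) ≤ t / 2 by positivity)
            nlinarith [sq_nonneg (t / 2 - 1)]
          have h9 : Real.exp t = Real.exp (t / 2) * Real.exp (t / 2) := by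
            rw [← Real.exp_add]
            congr 1
            ring
          rw [h9, sq]
          exact mul_le_mul h8 h8 ht0.le (Real.exp_pos _).le
        exact h6
      have h5 : Real.exp t * Real.exp (-t) = 1 := by rw [← Real.exp_add]; simp
      have h6 := mul_le_mul_of_nonneg_right h4 (Real.exp_pos (-t)).le
      linarith
    calc d t ^ 2 ≤ (r * (t * Real.exp (-t))) ^ 2 := h2
      _ = (r : ℝ) ^ 2 * ((t ^ 2 * Real.exp (-t)) * Real.exp (-t)) := by ring
      _ ≤ (r : ℝ) ^ 2 * (1 * Real.exp (-t)) := by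
          apply mul_le_mul_of_nonneg_left _ (sq_nonneg _)
          exact mul_le_mul_of_nonneg_right h3 (Real.exp_pos _).le
      _ = _ := by ring
  have hexp : IntegrableOn (fun t : ℝ => (r : ℝ) ^ 2 * Real.exp (-t)) (Ioi 1) :=
    (integrableOn_exp_neg_Ioi 1).const_mul _
  have hd2 : ∀ T : ℝ, IntegrableOn (fun t => d t ^ 2) (Ioc 1 T) := by
    intro T
    refine Integrable.mono' (hexp.mono_set Ioc_subset_Ioi_self) (hdm.pow_const 2).aestronglyMeasurable ?_
    filter_upwards [ae_restrict_mem measurableSet_Ioc] with t ht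
    rw [Real.norm_eq_abs, abs_of_nonneg (sq_nonneg _)]
    exact hdb2 t ht.1
  have hfdm : ∀ T : ℝ, IntegrableOn (fun t => (f t + d t) ^ 2) (Ioc 1 T) := by
    intro T
    have hfm : Measurable f := measurable_id.mul (hS0.grow.meas.sub measurable_const)
    refine Integrable.mono' (((hf2 T).const_mul 2).add ((hd2 T).const_mul 2))
      ((hfm.add hdm).pow_const 2).aestronglyMeasurable ?_
    refine Eventually.of_forall fun t => ?_
    rw [Real.norm_eq_abs, abs_of_nonneg (sq_nonneg _)]
    show (f t + d t) ^ 2 ≤ 2 * f t ^ 2 + 2 * d t ^ 2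
    nlinarith [sq_nonneg (f t - d t)]
  have hlf := shift_start hf0 (zero_le_one : (0 : ℝ) ≤ 1) hlim
  have hld : Tendsto (fun T : ℝ => (1 / T) * ∫ t in Ioc 1 T, d t ^ 2) atTop (𝓝 0) := by
    refine mean_zero (fun t => sq_nonneg _) (∫ t in Ioi (1 : ℝ), (r : ℝ) ^ 2 * Real.exp (-t)) 1 fun T => ?_
    calc ∫ t in Ioc 1 T, d t ^ 2 ≤ ∫ t in Ioc 1 T, (r : ℝ) ^ 2 * Real.exp (-t) :=
          setIntegral_mono_on (hd2 T) (hexp.mono_set Ioc_subset_Ioi_self) measurableSet_Ioc fun t ht =>
            hdb2 t ht.1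
      _ ≤ ∫ t in Ioi (1 : ℝ), (r : ℝ) ^ 2 * Real.exp (-t) := by
          refine setIntegral_mono_set hexp ?_ ?_
          · exact Eventually.of_forall fun t => mul_nonneg (sq_nonneg _) (Real.exp_pos _).le
          · exact Eventually.of_forall fun t ht => Ioc_subset_Ioi_self ht
  have hfin := perturb hf2 hd2 hfdm hlf hld
  simp_rw [hfd] at hfin hfdm
  exact ⟨hsum, hfdm, hfin⟩

end Pool.Agent.Helper16.CR
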