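import Pool.Agent.Helper7.CR.N1
import Pool.Agent.Helper29.CR.V3a
import Pool.Agent.Helper7.CR.C10
import Pool.Agent.Helper29.MS.Bwd
import Pool.Agent.Helper16.OM.Main

/-!
CR-N2. If `F` has a zero with `Re ρ > 1`, the positive part of `h` is large in mean in every window, and the mean square of
`h x * log x` tends to infinity.
-/

set_option autoImplicit false

namespace Pool.Agent.Helper16.CR

open Complex Filter Topology MeasureTheory Set
open Pool.Agent.Helper13.Bsd Pool.Agent.Helper7.GW Pool.Agent.Helper58.BSD Pool.Agent.Helper29.MS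
open Pool.Agent.Helper16.OM (hs LL_upper)

/-- additive form -/
theorem int_big_t (W : WeierstrassCurve ℤ) (N : ℕ → ℕ)
    (hNdef : ∀ p : ℕ, N p = 1 + ((Finset.range p ×ˢ Finset.range p).filter
      (fun q : ℕ × ℕ => (p : ℤ) ∣ ((q.2 : ℤ) ^ 2 + W.a₁ * (q.1 : ℤ) * (q.2 : ℤ) + W.a₃ * (q.2 : ℤ)
        - ((q.1 : ℤ) ^ 3 + W.a₂ * (q.1 : ℤ) ^ 2 + W.a₄ * (q.1 : ℤ) + W.a₆)))).card)
    (hΔ : W.Δ ≠ 0) (F : ℂ → ℂ) (hFd : Differentiable ℂ F) (hF : EulerHyp W N F)
    {ρ : ℂ} (hρ : F ρ = 0) (hρ1 : 1 < ρ.re) {δ ε : ℝ} (hδ : 0 < δ) (hε : 0 < ε) (hε1 : ε < ρ.re - 1) :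
    ∀ᶠ T : ℝ in atTop, Real.exp ((ρ.re - 1 - ε) * T) ≤
      ∫ t in Ioc T ((1 + δ) * T), max (hs W N F (Real.exp t)) 0 := by
  have hN := nhyp W N hNdef
  have hB : EulerB N (badW W) F := hF
  obtain ⟨A, hS⟩ := bsd_setup hN F hFd hB
  obtain ⟨C0, hC00, hC0⟩ := ee_bdd (bad := badW W) hN
  obtain ⟨K1, T1, hK1, hT1, hLL⟩ := LL_upper W N hNdef hΔ F hFd hF
  have hmeas := Pool.Agent.Helper29.CR.measurable_hs W N F
  have hbdd := Pool.Agent.Helper29.CR.hs_bdd W N hNdef hΔ F hFd hF
  have hs0 : GG N (badW W) F (ρ - 1) = 0 := by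
    rw [GG_zero_iff hN F (ρ - 1) (by rw [sub_re, one_re]; linarith)]
    rw [show (1 : ℂ) + (ρ - 1) = ρ by ring]
    exact hρ
  have hre : (ρ - 1).re = ρ.re - 1 := by rw [sub_re, one_re]
  have h1 := abs_int_big hS hs0 (by rw [hre]; linarith) hδ (half_pos hε)
  rw [hre] at h1
  set v : ℝ → ℝ := fun t => LL N (badW W) t - ee N (badW W) t with hv
  have hvm : Measurable v := (measurable_LL N (badW W)).sub (measurable_ee (N := N) (bad := badW W))
  set c : ℝ := ρ.re - 1 with hc
  -- the polynomial error is absorbed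
  set D : ℝ := (K1 * (1 + (1 + δ)) + C0) * δ with hD
  have hD0 : 0 ≤ D := by positivity
  have habs : ∀ᶠ T : ℝ in atTop, Real.exp ((c - ε) * T) + D * T ^ 2 ≤ Real.exp ((c - ε / 2) * T) := by
    have h2 : Tendsto (fun T : ℝ => T ^ 2 * Real.exp (-((c - ε / 2) * T))) atTop (𝓝 0) := by
      have h3 := tendsto_rpow_mul_exp_neg_mul_atTop_nhds_zero 2 (c - ε / 2) (by linarith)
      refine h3.congr fun T => ?_
      rw [neg_mul]
      congr 1
      exact Real.rpow_two T
    have h3 : Tendsto (fun T : ℝ => Real.exp (-((ε / 2) * T))) atTop (𝓝 0) :=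
      Real.tendsto_exp_neg_atTop_nhds_zero.comp (tendsto_id.const_mul_atTop (half_pos hε))
    have h4 := h3.add (h2.const_mul D)
    rw [mul_zero, add_zero] at h4
    filter_upwards [h4.eventually (gt_mem_nhds one_pos)] with T hT
    have e0 := Real.exp_pos ((c - ε / 2) * T)
    have h5 := mul_le_mul_of_nonneg_right hT.le e0.le
    rw [one_mul, add_mul, ← Real.exp_add] at h5
    have e1 : -(ε / 2 * T) + (c - ε / 2) * T = (c - ε) * T := by ring
    have e2 : D * (T ^ 2 * Real.exp (-((c - ε / 2) * T))) * Real.exp ((c - ε / 2) * T) = D * T ^ 2 := by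
      have e3 : Real.exp (-((c - ε / 2) * T)) * Real.exp ((c - ε / 2) * T) = 1 := by
        rw [← Real.exp_add, neg_add_cancel, Real.exp_zero]
      calc D * (T ^ 2 * Real.exp (-((c - ε / 2) * T))) * Real.exp ((c - ε / 2) * T)
          = D * T ^ 2 * (Real.exp (-((c - ε / 2) * T)) * Real.exp ((c - ε / 2) * T)) := by ring
        _ = D * T ^ 2 := by rw [e3, mul_one]
    rw [e1, e2] at h5
    exact h5
  filter_upwards [h1, habs, eventually_ge_atTop T1, eventually_ge_atTop (1 : ℝ)] with T h2 h3 hT hT11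
  have hT0 : 0 < T := by linarith
  have hle : T ≤ (1 + δ) * T := by nlinarith
  have hvi : IntegrableOn (fun t => max (v t) 0) (Ioc T ((1 + δ) * T)) := by
    have hA := hS.grow.hA
    have ha := hS.grow.ha
    refine Measure.integrableOn_of_bounded (M := A * Real.exp (1 / 2 * ((1 + δ) * T))) measure_Ioc_lt_top.ne
      (hvm.max measurable_const).aestronglyMeasurable ?_
    rw [ae_restrict_iff' measurableSet_Ioc]
    refine Filter.Eventually.of_forall fun t ht => ?_
    have ht0 : 0 < t := hT0.trans ht.1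
    have h5 := hS.grow.bd t ht0
    rw [Real.norm_eq_abs, abs_of_nonneg (le_max_right _ _)]
    refine max_le ?_ (by positivity)
    refine ((le_abs_self _).trans h5).trans ?_
    apply mul_le_mul_of_nonneg_left _ hA
    apply Real.exp_le_exp.2
    nlinarith [ht.2]
  have hqi : IntegrableOn (fun t => max (hs W N F (Real.exp t)) 0) (Ioc T ((1 + δ) * T)) := by
    obtain ⟨E, hE, hEb⟩ := hbdd T ((1 + δ) * T) hT0
    refine Measure.integrableOn_of_bounded (M := E) measure_Ioc_lt_top.ne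
      ((hmeas.comp Real.measurable_exp).max measurable_const).aestronglyMeasurable ?_
    rw [ae_restrict_iff' measurableSet_Ioc]
    refine Filter.Eventually.of_forall fun t ht => ?_
    rw [Real.norm_eq_abs, abs_of_nonneg (le_max_right _ _)]
    exact max_le ((le_abs_self _).trans (hEb t ht.1.le ht.2)) hE
  have hci : IntegrableOn (fun _ : ℝ => (K1 * (1 + (1 + δ)) + C0) * T) (Ioc T ((1 + δ) * T)) :=
    integrableOn_const (by simp)
  have h4 : ∫ t in Ioc T ((1 + δ) * T), max (v t) 0 ≤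
      (∫ t in Ioc T ((1 + δ) * T), max (hs W N F (Real.exp t)) 0) + D * T ^ 2 := by
    have h5 : ∫ t in Ioc T ((1 + δ) * T), max (v t) 0 ≤
        ∫ t in Ioc T ((1 + δ) * T), (max (hs W N F (Real.exp t)) 0 + (K1 * (1 + (1 + δ)) + C0) * T) := by
      refine setIntegral_mono_on hvi (hqi.add hci) measurableSet_Ioc fun t ht => ?_
      have ht1 : T1 ≤ t := hT.trans ht.1.le
      have ht0 : 0 < t := hT0.trans ht.1
      have h6 := hLL 1 (Or.inl rfl) t ht1
      rw [one_mul, one_mul] at h6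
      have h7 := hC0 t ht0
      have h8 := neg_abs_le (ee N (badW W) t)
      have h9 : K1 * (1 + t) ≤ K1 * ((1 + (1 + δ)) * T) := by
        apply mul_le_mul_of_nonneg_left _ hK1
        nlinarith [ht.2]
      have h10 : C0 ≤ C0 * T := le_mul_of_one_le_right hC00 hT11
      have h11 := le_max_left (hs W N F (Real.exp t)) 0
      have h12 := le_max_right (hs W N F (Real.exp t)) 0
      refine max_le ?_ (by positivity)
      simp only [hv]
      nlinarith
    rw [integral_add hqi hci, setIntegral_const] at h5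
    refine h5.trans (add_le_add le_rfl (le_of_eq ?_))
    rw [Real.volume_real_Ioc_of_le hle, smul_eq_mul, hD]
    ring
  rw [integral_Icc_eq_integral_Ioc] at h2
  linarith

/-- in every window the positive part of `h` is large in mean -/
theorem int_big_hs (W : WeierstrassCurve ℤ) (N : ℕ → ℕ)
    (hNdef : ∀ p : ℕ, N p = 1 + ((Finset.range p ×ˢ Finset.range p).filter
      (fun q : ℕ × ℕ => (p : ℤ) ∣ ((q.2 : ℤ) ^ 2 + W.a₁ * (q.1 : ℤ) * (q.2 : ℤ) + W.a₃ * (q.2 : ℤ)
        - ((q.1 : ℤ) ^ 3 + W.a₂ * (q.1 : ℤ) ^ 2 + W.a₄ * (q.1 : ℤ) + W.a₆)))).card)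
    (hΔ : W.Δ ≠ 0) (F : ℂ → ℂ) (hFd : Differentiable ℂ F) (hF : EulerHyp W N F)
    {ρ : ℂ} (hρ : F ρ = 0) (hρ1 : 1 < ρ.re) {δ ε : ℝ} (hδ : 0 < δ) (hε : 0 < ε) :
    ∀ᶠ X : ℝ in atTop, X ^ (ρ.re - 1 - ε) ≤ ∫ x in X..(X ^ (1 + δ)), max (hs W N F x) 0 / x := by
  set ε' : ℝ := min ε ((ρ.re - 1) / 2) with hε'
  have hε'0 : 0 < ε' := lt_min hε (by linarith)
  have hε'1 : ε' < ρ.re - 1 := lt_of_le_of_lt (min_le_right _ _) (by linarith)
  have h1 := int_big_t W N hNdef hΔ F hFd hF hρ hρ1 hδ hε'0 hε'1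
  filter_upwards [Real.tendsto_log_atTop.eventually h1, eventually_gt_atTop (1 : ℝ)] with X hX hX1
  have hX0 : 0 < X := by linarith
  have hl : 0 < Real.log X := Real.log_pos hX1
  have e1 : X ^ (1 + δ) = Real.exp ((1 + δ) * Real.log X) := by
    rw [Real.rpow_def_of_pos hX0]
    congr 1
    ring
  have e2 : ∫ x in X..(X ^ (1 + δ)), max (hs W N F x) 0 / x =
      ∫ t in Ioc (Real.log X) ((1 + δ) * Real.log X), max (hs W N F (Real.exp t)) 0 := by
    have h2 := int_comp_exp (fun x => max (hs W N F x) 0) (show Real.log X ≤ (1 + δ) * Real.log X by nlinarith)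
    rw [Real.exp_log hX0, ← e1, intervalIntegral.integral_of_le (show Real.log X ≤ (1 + δ) * Real.log X by nlinarith)] at h2
    exact h2
  rw [e2]
  refine le_trans ?_ hX
  rw [Real.rpow_def_of_pos hX0]
  apply Real.exp_le_exp.2
  rw [mul_comm]
  apply mul_le_mul_of_nonneg_right _ hl.le
  have := min_le_left ε ((ρ.re - 1) / 2)
  linarith

/-- the mean square tends to infinity -/
theorem ms_infinite (W : WeierstrassCurve ℤ) (N : ℕ → ℕ)
    (hNdef : ∀ p : ℕ, N p = 1 + ((Finset.range p ×ˢ Finset.range p).filter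
      (fun q : ℕ × ℕ => (p : ℤ) ∣ ((q.2 : ℤ) ^ 2 + W.a₁ * (q.1 : ℤ) * (q.2 : ℤ) + W.a₃ * (q.2 : ℤ)
        - ((q.1 : ℤ) ^ 3 + W.a₂ * (q.1 : ℤ) ^ 2 + W.a₄ * (q.1 : ℤ) + W.a₆)))).card)
    (hΔ : W.Δ ≠ 0) (F : ℂ → ℂ) (hFd : Differentiable ℂ F) (hF : EulerHyp W N F)
    {ρ : ℂ} (hρ : F ρ = 0) (hρ1 : 1 < ρ.re) :
    Tendsto (fun X : ℝ => (1 / Real.log X) * ∫ x in Ioc 2 X, (hs W N F x * Real.log x) ^ 2 / x) atTop atTop := by
  have hmeas := Pool.Agent.Helper29.CR.measurable_hs W N F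
  have hbdd := Pool.Agent.Helper29.CR.hs_bdd W N hNdef hΔ F hFd hF
  set c : ℝ := (ρ.re - 1) / 2 with hc
  have hc0 : 0 < c := by rw [hc]; linarith
  have h1 := int_big_t W N hNdef hΔ F hFd hF hρ hρ1 one_pos hc0 (by rw [hc]; linarith)
  have e0 : ρ.re - 1 - c = c := by rw [hc]; ring
  rw [e0] at h1
  set q : ℝ → ℝ := fun t => hs W N F (Real.exp t) with hq
  have hqm : Measurable q := hmeas.comp Real.measurable_exp
  have hlog2 : Real.log 2 ≤ 1 := by
    have := Real.log_two_lt_d9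
    linarith
  have hl2 : 0 < Real.log 2 := Real.log_pos one_lt_two
  have hqi : ∀ a T : ℝ, 0 < a → IntegrableOn (fun t => (t * q t) ^ 2) (Ioc a T) := by
    intro a T ha
    obtain ⟨D, hD, hDb⟩ := hbdd a T ha
    refine Measure.integrableOn_of_bounded (M := (|T| * D) ^ 2) measure_Ioc_lt_top.ne
      ((measurable_id.mul hqm).pow_const 2).aestronglyMeasurable ?_
    rw [ae_restrict_iff' measurableSet_Ioc]
    refine Filter.Eventually.of_forall fun t ht => ?_
    have ht0 : 0 < t := ha.trans ht.1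
    have h1 := hDb t ht.1.le ht.2
    rw [Real.norm_eq_abs, abs_of_nonneg (sq_nonneg _), ← sq_abs, abs_mul, abs_of_pos ht0]
    exact pow_le_pow_left₀ (by positivity) (mul_le_mul (ht.2.trans (le_abs_self T)) h1 (abs_nonneg _) (abs_nonneg _)) 2
  -- in the variable `T = log X / 2`
  have h2 : ∀ᶠ T : ℝ in atTop, Real.exp (c * T) - T ≤ ∫ t in Ioc (Real.log 2) (2 * T), (t * q t) ^ 2 := by
    filter_upwards [h1, eventually_ge_atTop (1 : ℝ)] with T hT hT1
    have e1 : (1 + 1) * T = 2 * T := by ring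
    rw [e1] at hT
    have hci : IntegrableOn (fun _ : ℝ => (1 : ℝ)) (Ioc T (2 * T)) := integrableOn_const (by simp)
    have hTi := hqi T (2 * T) (by linarith)
    have h3 : ∫ t in Ioc T (2 * T), max (hs W N F (Real.exp t)) 0 ≤ ∫ t in Ioc T (2 * T), ((t * q t) ^ 2 + 1) := by
      refine integral_mono_of_nonneg (Eventually.of_forall fun t => le_max_right _ _) (hTi.add hci) ?_
      rw [Filter.EventuallyLE, ae_restrict_iff' measurableSet_Ioc]
      refine Filter.Eventually.of_forall fun t ht => ?_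
      have ht1 : 1 ≤ t := hT1.trans ht.1.le
      show max (q t) 0 ≤ (t * q t) ^ 2 + 1
      refine max_le ?_ (by positivity)
      have h4 : q t ≤ q t ^ 2 + 1 := by nlinarith [sq_nonneg (q t - 1), sq_nonneg (q t)]
      have h5 : q t ^ 2 ≤ (t * q t) ^ 2 := by
        rw [mul_pow]
        exact le_mul_of_one_le_left (sq_nonneg _) (one_le_pow₀ ht1)
      linarith
    rw [integral_add hTi hci, setIntegral_const, Real.volume_real_Ioc_of_le (by linarith)] at h3
    have h4 : ∫ t in Ioc T (2 * T), (t * q t) ^ 2 ≤ ∫ t in Ioc (Real.log 2) (2 * T), (t * q t) ^ 2 := by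
      refine setIntegral_mono_set (hqi _ _ hl2) (Eventually.of_forall fun t => sq_nonneg _) ?_
      exact (Ioc_subset_Ioc_left (by linarith)).eventuallyLE
    have e2 : (2 * T - T) • (1 : ℝ) = T := by rw [smul_eq_mul]; ring
    rw [e2] at h3
    linarith
  have h3 : Tendsto (fun X : ℝ => Real.log X / 2) atTop atTop := Real.tendsto_log_atTop.atTop_div_const two_pos
  have h4 := h3.eventually h2
  -- the lower bound tends to infinity
  have h5 : Tendsto (fun T : ℝ => Real.exp (c * T) / T) atTop atTop := by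
    have h6 := tendsto_exp_mul_div_rpow_atTop 1 c hc0
    refine h6.congr fun T => ?_
    rw [Real.rpow_one]
  have h6 : Tendsto (fun T : ℝ => (Real.exp (c * T) / T - 1) / 2) atTop atTop :=
    (tendsto_atTop_add_const_right _ (-1) h5).atTop_div_const two_pos
  refine tendsto_atTop_mono' _ ?_ (h6.comp h3)
  filter_upwards [h4, eventually_gt_atTop (1 : ℝ)] with X hX hX1
  have hX0 : 0 < X := by linarith
  have hlX : 0 < Real.log X := Real.log_pos hX1
  have e3 : 2 * (Real.log X / 2) = Real.log X := by ring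
  rw [e3] at hX
  have e4 : ∫ x in Ioc 2 X, (hs W N F x * Real.log x) ^ 2 / x = ∫ t in Ioc (Real.log 2) (Real.log X), (t * q t) ^ 2 := by
    have h5 := (subst_exp (fun x => (hs W N F x * Real.log x) ^ 2) (Real.log 2) (Real.log X)).2
    rw [Real.exp_log two_pos, Real.exp_log hX0] at h5
    rw [h5]
    refine setIntegral_congr_fun measurableSet_Ioc fun t _ => ?_
    show (hs W N F (Real.exp t) * Real.log (Real.exp t)) ^ 2 = (t * q t) ^ 2
    rw [Real.log_exp, mul_comm]
  rw [e4]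
  show (Real.exp (c * (Real.log X / 2)) / (Real.log X / 2) - 1) / 2 ≤ _
  have e5 : (Real.exp (c * (Real.log X / 2)) / (Real.log X / 2) - 1) / 2 =
      (1 / Real.log X) * (Real.exp (c * (Real.log X / 2)) - Real.log X / 2) := by
    field_simp
  rw [e5]
  exact mul_le_mul_of_nonneg_left hX (by positivity)

end Pool.Agent.Helper16.CR
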