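import Pool.Agent.Helper16.CR.E
import Pool.Agent.Helper16.CR.U1
import Pool.Agent.Helper46.CR.D7
import Pool.Agent.Helper56.CR.U2

/-!
CR-U3. The support of the limiting law.
-/

set_option autoImplicit false

namespace Pool.Agent.Helper16.CR

open Complex Filter Topology MeasureTheory Set
open Pool.Agent.Helper13.Bsd Pool.Agent.Helper7.GW Pool.Agent.Helper58.BSD Pool.Agent.Helper29.MS
open Pool.Agent.Helper46.CR (PP PP_cont)
open Pool.Agent.Helper16.OM (hs Fac)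

/-- means of `Φ (w t)` from means of `Φ (h x log x)` -/
theorem mean_back (W : WeierstrassCurve ℤ) (N : ℕ → ℕ) (F : ℂ → ℂ) (hmeas : Measurable (hs W N F))
    (hbdd : ∀ a b : ℝ, 0 < a → ∃ C : ℝ, 0 ≤ C ∧ ∀ t : ℝ, a ≤ t → t ≤ b → |hs W N F (Real.exp t)| ≤ C)
    (Φ : ℝ → ℝ) (hΦ : Continuous Φ) (l : ℝ)
    (h : Tendsto (fun X : ℝ => (1 / Real.log X) * ∫ x in Ioc 2 X, Φ (hs W N F x * Real.log x) / x) atTop (𝓝 l)) :
    Tendsto (fun T : ℝ => (1 / T) * ∫ t in Ioc 0 T, Φ (wcut W N F t)) atTop (𝓝 l) := by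
  have hwm := measurable_wcut W N F hmeas
  have hl2 : 0 < Real.log 2 := Real.log_pos one_lt_two
  have hi : ∀ T : ℝ, IntegrableOn (fun t => Φ (wcut W N F t)) (Ioc 0 T) := by
    intro T
    obtain ⟨D, hD, hDb⟩ := wcut_bdd W N F hbdd T
    obtain ⟨M, hM⟩ := (isCompact_Icc (a := -D) (b := D)).exists_bound_of_continuousOn hΦ.continuousOn
    refine Measure.integrableOn_of_bounded (M := M) measure_Ioc_lt_top.ne
      (hΦ.measurable.comp hwm).aestronglyMeasurable ?_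
    rw [ae_restrict_iff' measurableSet_Ioc]
    exact Filter.Eventually.of_forall fun t ht => hM _ (abs_le.1 (hDb t ht))
  have hfun : ∀ t ∈ Ioi (Real.log 2), Φ (hs W N F (Real.exp t) * Real.log (Real.exp t)) = Φ (wcut W N F t) := by
    intro t ht
    unfold wcut
    rw [indicator_of_mem ht, Real.log_exp, mul_comm]
  refine shift_back hi hl2.le ?_
  refine (h.comp Real.tendsto_exp_atTop).congr fun T => ?_
  show (1 / Real.log (Real.exp T)) * ∫ x in Ioc 2 (Real.exp T), Φ (hs W N F x * Real.log x) / x = _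
  have h5 := (subst_exp (fun x => Φ (hs W N F x * Real.log x)) (Real.log 2) T).2
  rw [Real.exp_log two_pos] at h5
  rw [h5, Real.log_exp]
  congr 1
  exact setIntegral_congr_fun measurableSet_Ioc fun t ht => hfun t ht.1

theorem law5 (W : WeierstrassCurve ℤ) (N : ℕ → ℕ)
    (hNdef : ∀ p : ℕ, N p = 1 + ((Finset.range p ×ˢ Finset.range p).filter
      (fun q : ℕ × ℕ => (p : ℤ) ∣ ((q.2 : ℤ) ^ 2 + W.a₁ * (q.1 : ℤ) * (q.2 : ℤ) + W.a₃ * (q.2 : ℤ)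
        - ((q.1 : ℤ) ^ 3 + W.a₂ * (q.1 : ℤ) ^ 2 + W.a₄ * (q.1 : ℤ) + W.a₆)))).card)
    (hΔ : W.Δ ≠ 0) (F : ℂ → ℂ) (hFd : Differentiable ℂ F) (hF : EulerHyp W N F)
    (hgr : ∃ (A : ℝ) (k : ℕ), ∀ s : ℂ, 1 / 2 ≤ s.re → ‖F s‖ ≤ A * (1 + ‖s‖) ^ k)
    (hRH : ∀ ρ : ℂ, 1 < ρ.re → F ρ ≠ 0) :
    ∃ μ : Measure ℝ, IsProbabilityMeasure μ ∧ Integrable (fun y : ℝ => y ^ 2) μ ∧ ∫ y, y ∂μ = 0 ∧
      ∫ y, y ^ 2 ∂μ = ∑' γ : ℝ, (if γ = 0 then 0 else (analyticOrderNatAt F (1 + γ * I) : ℝ) ^ 2 / γ ^ 2) ∧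
      (∀ Φ : ℝ → ℝ, Continuous Φ → (∃ C : ℝ, ∀ y, |Φ y| ≤ C * (1 + y ^ 2)) →
        (∀ X : ℝ, IntegrableOn (fun x => Φ (hs W N F x * Real.log x) / x) (Ioc 2 X)) ∧
        Tendsto (fun X : ℝ => (1 / Real.log X) * ∫ x in Ioc 2 X, Φ (hs W N F x * Real.log x) / x) atTop
          (𝓝 (∫ y, Φ y ∂μ))) ∧
      ∀ (R K : ℝ) (Z : Finset ℝ), 0 < R → (∀ t ∈ Z, t ≠ 0 ∧ |t| ≤ R) →
        2 * R * K < ∑ t ∈ Z, (analyticOrderNatAt F (1 + t * I) : ℝ) →
        μ (Ioi K) ≠ 0 ∧ μ (Iio (-K)) ≠ 0 := by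
  classical
  have hmeas := Pool.Agent.Helper29.CR.measurable_hs W N F
  have hbdd := Pool.Agent.Helper29.CR.hs_bdd W N hNdef hΔ F hFd hF
  obtain ⟨hsum, μ, hμ, hμ2, hμ1, hμV, hlaw⟩ := law_hs_full W N hNdef hΔ F hFd hF hgr hRH
  refine ⟨μ, hμ, hμ2, hμ1, hμV, hlaw, ?_⟩
  obtain ⟨v', G', A', a', B', c', k', hFr, hmm, hd⟩ := frame_hs_of W N hNdef hΔ F hFd hF hmeas hbdd hgr hRH
  have hwm := measurable_wcut W N F hmeas
  have hum : Measurable (fun t : ℝ => t * (v' t - kap G')) :=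
    measurable_id.mul (hFr.setup.grow.meas.sub_const _)
  set mm : ℝ → ℕ := fun γ : ℝ => analyticOrderNatAt F (1 + γ * I) with hmmdef
  set cc : ℝ → ℝ := fun γ : ℝ => if γ = 0 then 0 else (mm γ : ℝ) ^ 2 / γ ^ 2 with hcc
  -- the approximation
  have hap : ∀ δ : ℝ, 0 < δ → ∀ Z0 : Finset ℝ, (0 : ℝ) ∉ Z0 → ∃ Z : Finset ℝ, Z0 ⊆ Z ∧ (0 : ℝ) ∉ Z ∧
      ∀ᶠ T : ℝ in atTop, IntegrableOn (fun t => ‖(wcut W N F t : ℂ) - ∑ γ ∈ Z, (mm γ : ℂ) / ((γ : ℂ) * I) *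
        cexp (((γ * t : ℝ) : ℂ) * I)‖ ^ 2) (Ioc 0 T) ∧
        (1 / T) * ∫ t in Ioc 0 T, ‖(wcut W N F t : ℂ) - ∑ γ ∈ Z, (mm γ : ℂ) / ((γ : ℂ) * I) *
          cexp (((γ * t : ℝ) : ℂ) * I)‖ ^ 2 ≤ δ := by
    intro δ hδ Z0 hZ0
    have h6 : ∀ᶠ Γ : Finset ℝ in atTop, (∑' γ : ℝ, cc γ) - δ < ∑ γ ∈ Γ, cc γ :=
      hsum.hasSum.eventually (lt_mem_nhds (by linarith))
    obtain ⟨Γ, hΓ1, hΓ2⟩ := (h6.and (eventually_ge_atTop Z0)).exists
    set Z : Finset ℝ := Γ.filter (fun γ => γ ≠ 0) with hZ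
    have hZ00 : (0 : ℝ) ∉ Z := by
      intro h0
      exact (Finset.mem_filter.1 h0).2 rfl
    have hZs : ∑ γ ∈ Z, (mm γ : ℝ) ^ 2 / γ ^ 2 = ∑ γ ∈ Γ, cc γ := by
      rw [hZ, Finset.sum_filter]
      refine Finset.sum_congr rfl fun γ _ => ?_
      by_cases h : γ = 0
      · simp [hcc, h]
      · simp [hcc, h]
    refine ⟨Z, ?_, hZ00, ?_⟩
    · intro γ hγ
      rw [hZ, Finset.mem_filter]
      exact ⟨hΓ2 hγ, fun h0 => hZ0 (h0 ▸ hγ)⟩
    · obtain ⟨hi0, hl0⟩ := expl_zero hFr _ hmm Z hZ00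
      obtain ⟨hi, hl⟩ := pertC hum hwm (PP_cont Z _) hd hi0 hl0
      rw [hZs] at hl
      have h7 : (∑' γ : ℝ, cc γ) - ∑ γ ∈ Γ, cc γ < δ := by linarith
      filter_upwards [hl.eventually (gt_mem_nhds h7)] with T hT
      exact ⟨hi T, hT.le⟩
  have hopen : IsOpen {s : ℂ | -(1 / 100 : ℝ) < s.re} := isOpen_lt continuous_const continuous_re
  have hGc : ContinuousAt G' 0 := by
    refine (hFr.setup.diff.differentiableAt (hopen.mem_nhds ?_)).continuousAt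
    show -(1 / 100 : ℝ) < (0 : ℂ).re
    rw [zero_re]
    norm_num
  intro R K Z hR hZ hlt
  have key : ∀ ε : ℝ, (ε = 1 ∨ ε = -1) → μ {y : ℝ | K < ε * y} ≠ 0 := by
    intro ε hε h0
    set Φ : ℝ → ℝ := fun y => max (ε * y - K) 0 with hΦ
    have hΦc : Continuous Φ := by fun_prop
    have habs : |ε| = 1 := by rcases hε with h | h <;> rw [h] <;> norm_num
    have hΦb : ∃ C : ℝ, ∀ y, |Φ y| ≤ C * (1 + y ^ 2) := by
      refine ⟨1 + |K|, fun y => ?_⟩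
      have h1 : |Φ y| ≤ |y| + |K| := by
        simp only [hΦ]
        rw [abs_of_nonneg (le_max_right _ _)]
        refine max_le ?_ (by positivity)
        have h2 : ε * y ≤ |y| := by
          calc ε * y ≤ |ε * y| := le_abs_self _
            _ = |y| := by rw [abs_mul, habs, one_mul]
        have h3 := neg_abs_le K
        linarith
      have h4 : |y| ≤ 1 + y ^ 2 := by nlinarith [sq_nonneg (|y| - 1), sq_abs y]
      have h5 : 0 ≤ |K| * y ^ 2 := by positivity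
      have h6 : (1 + |K|) * (1 + y ^ 2) = (1 + y ^ 2) + |K| + |K| * y ^ 2 := by ring
      linarith
    have hint0 : ∫ y, Φ y ∂μ = 0 := by
      refine integral_eq_zero_of_ae ?_
      rw [Filter.EventuallyEq, ae_iff]
      refine measure_mono_null (fun y hy => ?_) h0
      show K < ε * y
      by_contra hc
      push Not at hc
      apply hy
      show max (ε * y - K) 0 = 0
      exact max_eq_right (by linarith)
    have h1 := mean_back W N F hmeas hbdd Φ hΦc _ (hlaw Φ hΦc hΦb).2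
    rw [hint0] at h1
    have h2 := count_of_pd hGc hFr.zero mm hmm ε hε K (fun B τ => pd_of_mean hwm hap ε hε K h1 B τ) R hR Z hZ
    linarith
  constructor
  · have h1 := key 1 (Or.inl rfl)
    have e : {y : ℝ | K < 1 * y} = Ioi K := by
      ext y
      simp
    rwa [e] at h1
  · have h1 := key (-1) (Or.inr rfl)
    have e : {y : ℝ | K < -1 * y} = Iio (-K) := by
      ext y
      simp only [mem_setOf_eq, mem_Iio, neg_mul, one_mul]
      constructor <;> intro h <;> linarith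
    rwa [e] at h1

end Pool.Agent.Helper16.CR
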