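import Pool.Agent.Helper16.CR.U3
import Pool.Agent.Helper16.CR.U4a
import Pool.Agent.Helper46.CR.U4b

/-!
CR-U5. With the functional equation the limiting law charges every half line.
-/

set_option autoImplicit false

namespace Pool.Agent.Helper16.CR

open Complex Filter Topology MeasureTheory Set
open Pool.Agent.Helper13.Bsd Pool.Agent.Helper7.GW Pool.Agent.Helper58.BSD Pool.Agent.Helper29.MS

/-- many zeros on the line, from the functional equation -/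
theorem fe_many (W : WeierstrassCurve ℤ) (N : ℕ → ℕ)
    (hNdef : ∀ p : ℕ, N p = 1 + ((Finset.range p ×ˢ Finset.range p).filter
      (fun q : ℕ × ℕ => (p : ℤ) ∣ ((q.2 : ℤ) ^ 2 + W.a₁ * (q.1 : ℤ) * (q.2 : ℤ) + W.a₃ * (q.2 : ℤ)
        - ((q.1 : ℤ) ^ 3 + W.a₂ * (q.1 : ℤ) ^ 2 + W.a₄ * (q.1 : ℤ) + W.a₆)))).card)
    (hΔ : W.Δ ≠ 0) (F : ℂ → ℂ) (hFd : Differentiable ℂ F) (hF : EulerHyp W N F)
    (hgr : ∃ (A : ℝ) (k : ℕ), ∀ s : ℂ, 1 / 2 ≤ s.re → ‖F s‖ ≤ A * (1 + ‖s‖) ^ k)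
    (hRH : ∀ ρ : ℂ, 1 < ρ.re → F ρ ≠ 0)
    (hFE : ∃ (b c : ℕ → ℝ) (A e : ℝ) (L : ℂ → ℂ), 0 < A ∧ (e = 1 ∨ e = -1) ∧ Differentiable ℂ L ∧
      (∀ s : ℂ, 0 < s.re → L s * ∏ p ∈ W.Δ.natAbs.primeFactors,
        (1 - (b p : ℂ) * (p : ℂ) ^ (-s) + (c p : ℂ) * (p : ℂ) ^ (1 - 2 * s)) = (A : ℂ) ^ s * Gamma s * F s) ∧
      ∀ s : ℂ, L (2 - s) = e * L s) (K : ℝ) :
    ∃ (R : ℝ) (Z : Finset ℝ), 0 < R ∧ (∀ t ∈ Z, t ≠ 0 ∧ |t| ≤ R) ∧
      2 * R * K < ∑ t ∈ Z, (analyticOrderNatAt F (1 + t * I) : ℝ) := by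
  classical
  obtain ⟨b, c, A, e, L, hA, he, hL, hLF, hfe⟩ := hFE
  by_contra hcon
  push Not at hcon
  refine fe_core W N hNdef hΔ F hFd hF b c A hA e he L hL hLF hfe |K| (abs_nonneg K) ?_
    (low_hs W N hNdef hΔ F hFd hF hgr hRH) ?_
  · intro w hw
    refine hRH (1 + w) ?_
    rw [add_re, one_re]
    linarith
  · intro R Z hR hZ
    have h1 := hcon R (Z.image Complex.im) hR (by
      intro t ht
      obtain ⟨ρ, hρ, rfl⟩ := Finset.mem_image.1 ht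
      exact (hZ ρ hρ).2)
    have hinj : Set.InjOn Complex.im (Z : Set ℂ) := by
      intro x hx y hy hxy
      exact Complex.ext ((hZ x hx).1.trans (hZ y hy).1.symm) hxy
    rw [Finset.sum_image hinj] at h1
    have h2 : ∑ ρ ∈ Z, (analyticOrderNatAt F ρ : ℝ) = ∑ ρ ∈ Z, (analyticOrderNatAt F (1 + (ρ.im : ℂ) * I) : ℝ) := by
      refine Finset.sum_congr rfl fun ρ hρ => ?_
      have h3 : (1 + (ρ.im : ℂ) * I) = ρ := by
        apply Complex.ext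
        · simp [(hZ ρ hρ).1]
        · simp
      rw [h3]
    rw [h2]
    refine h1.trans ?_
    have h4 := le_abs_self K
    have h5 : 0 ≤ 2 * R := by linarith
    exact mul_le_mul_of_nonneg_left h4 h5

end Pool.Agent.Helper16.CR
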