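import Pool.Agent.Helper16.CR.V3c
import Pool.Agent.Helper29.CR.V3b
import Pool.Agent.Helper46.CR.D7
import Pool.Agent.Helper9.CR.V3d
import Pool.Agent.Helper9.CR.C11
import Pool.Agent.Helper29.MS.Dyad

/-!
CR-V3. Assembly: the exact mean square, the limiting distribution, and the chain back to the Riemann hypothesis.
-/

set_option autoImplicit false

namespace Pool.Agent.Helper16.CR

open Complex Filter Topology MeasureTheory Set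
open Pool.Agent.Helper13.Bsd Pool.Agent.Helper7.GW Pool.Agent.Helper58.BSD Pool.Agent.Helper29.MS
open Pool.Agent.Helper16.OM (hs)

theorem ms3 (W : WeierstrassCurve ℤ) (N : ℕ → ℕ)
    (hNdef : ∀ p : ℕ, N p = 1 + ((Finset.range p ×ˢ Finset.range p).filter
      (fun q : ℕ × ℕ => (p : ℤ) ∣ ((q.2 : ℤ) ^ 2 + W.a₁ * (q.1 : ℤ) * (q.2 : ℤ) + W.a₃ * (q.2 : ℤ)
        - ((q.1 : ℤ) ^ 3 + W.a₂ * (q.1 : ℤ) ^ 2 + W.a₄ * (q.1 : ℤ) + W.a₆)))).card)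
    (hΔ : W.Δ ≠ 0) (F : ℂ → ℂ) (hFd : Differentiable ℂ F) (hF : EulerHyp W N F) :
    ((∃ (A : ℝ) (k : ℕ), ∀ s : ℂ, 1 / 2 ≤ s.re → ‖F s‖ ≤ A * (1 + ‖s‖) ^ k) →
      (∀ ρ : ℂ, 1 < ρ.re → F ρ ≠ 0) →
        Summable (fun t : ℝ => if t = 0 then 0 else (analyticOrderNatAt F (1 + t * I) : ℝ) ^ 2 / t ^ 2) ∧
        (∀ X : ℝ, IntegrableOn (fun x => (hs W N F x * Real.log x) ^ 2 / x) (Ioc 2 X)) ∧
        Tendsto (fun X : ℝ => (1 / Real.log X) * ∫ x in Ioc 2 X, (hs W N F x * Real.log x) ^ 2 / x) atTop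
          (𝓝 (∑' t : ℝ, if t = 0 then 0 else (analyticOrderNatAt F (1 + t * I) : ℝ) ^ 2 / t ^ 2)) ∧
        ∃ μ : Measure ℝ, IsProbabilityMeasure μ ∧
          Integrable (fun y : ℝ => y ^ 2) μ ∧ ∫ y, y ∂μ = 0 ∧
          ∫ y, y ^ 2 ∂μ = (∑' t : ℝ, if t = 0 then 0 else (analyticOrderNatAt F (1 + t * I) : ℝ) ^ 2 / t ^ 2) ∧
          ∀ Φ : ℝ → ℝ, Continuous Φ → (∃ M : ℝ, ∀ y, |Φ y| ≤ M * (1 + y ^ 2)) →
            Tendsto (fun X : ℝ => (1 / Real.log X) * ∫ x in Ioc 2 X, Φ (hs W N F x * Real.log x) / x) atTop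
              (𝓝 (∫ y, Φ y ∂μ))) ∧
    ((∀ X : ℝ, IntegrableOn (fun x => (hs W N F x * Real.log x) ^ 2 / x) (Ioc 2 X)) →
      (∃ S : ℝ, Tendsto (fun X : ℝ => (1 / Real.log X) * ∫ x in Ioc 2 X, (hs W N F x * Real.log x) ^ 2 / x)
        atTop (𝓝 S)) →
        ∃ K : ℝ, ∀ X : ℝ, 2 ≤ X → IntegrableOn (fun x => (hs W N F x * Real.log x) ^ 2 / x) (Ioc 2 X) ∧
          ∫ x in Ioc 2 X, (hs W N F x * Real.log x) ^ 2 / x ≤ K * Real.log X) ∧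
    ((∃ K : ℝ, ∀ X : ℝ, 2 ≤ X → IntegrableOn (fun x => (hs W N F x * Real.log x) ^ 2 / x) (Ioc 2 X) ∧
          ∫ x in Ioc 2 X, (hs W N F x * Real.log x) ^ 2 / x ≤ K * Real.log X) →
        IntegrableOn (fun x => hs W N F x ^ 2 / x) (Ioi (2 : ℝ))) ∧
    (IntegrableOn (fun x => hs W N F x ^ 2 / x) (Ioi (2 : ℝ)) →
      Tendsto (fun X : ℝ => ∫ x in X..(2 * X), |hs W N F x| / x) atTop (𝓝 0)) ∧
    (Tendsto (fun X : ℝ => ∫ x in X..(2 * X), |hs W N F x| / x) atTop (𝓝 0) →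
      ∀ ε : ℝ, 0 < ε → ∀ᶠ X : ℝ in atTop, ∫ x in X..(2 * X), max (hs W N F x) 0 / x ≤ X ^ ε) ∧
    ((∀ ε : ℝ, 0 < ε → ∀ᶠ X : ℝ in atTop, ∫ x in X..(2 * X), max (hs W N F x) 0 / x ≤ X ^ ε) →
      ∀ ρ : ℂ, 1 < ρ.re → F ρ ≠ 0) := by
  refine ⟨fun hgr hRH => ?_, fun hi hl => ?_, ?_, dyad_of_l2, one_sided_hs W N hNdef hΔ F hFd hF,
    bwd_hs W N hNdef hΔ F hFd hF⟩
  · obtain ⟨h1, h2, h3⟩ := exact_hs_of W N hNdef hΔ F hFd hF (Pool.Agent.Helper29.CR.measurable_hs W N F)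
      (Pool.Agent.Helper29.CR.hs_bdd W N hNdef hΔ F hFd hF) hgr hRH
    obtain ⟨μ, hμ, hμ2, hμ1, hlaw⟩ := law_hs W N hNdef hΔ F hFd hF hgr hRH
    refine ⟨h1, h2, h3, μ, hμ, hμ2, hμ1, ?_, hlaw⟩
    refine tendsto_nhds_unique (hlaw (fun y => y ^ 2) (continuous_pow 2) ⟨1, fun y => ?_⟩) h3
    rw [abs_of_nonneg (sq_nonneg y)]
    linarith
  · obtain ⟨S, hS⟩ := hl
    refine bounded_of_limit (fun x hx => div_nonneg (sq_nonneg _) (by linarith)) (fun X _ => hi X) (|S| + 1) ?_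
    filter_upwards [hS.eventually (gt_mem_nhds (show S < |S| + 1 by linarith [le_abs_self S])),
      eventually_gt_atTop (1 : ℝ)] with X hX hX1
    have hlX : 0 < Real.log X := Real.log_pos hX1
    rw [one_div, inv_mul_lt_iff₀ hlX] at hX
    rw [mul_comm]
    exact hX.le
  · rintro ⟨K, hK⟩
    exact l2_of_cramer K hK

end Pool.Agent.Helper16.CR
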