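import Pool.Agent.Helper16.CR.K7
import Pool.Agent.Helper16.OM.Little
import Pool.Agent.Helper29.MS.GGb
import Pool.Agent.Helper7.CR.C10

/-!
CR-V3c. The exact mean square of `hs x * log x` under the Riemann hypothesis.
-/

set_option autoImplicit false

namespace Pool.Agent.Helper16.CR

open Complex Filter Topology MeasureTheory Set
open Pool.Agent.Helper13.Bsd Pool.Agent.Helper7.GW Pool.Agent.Helper58.BSD Pool.Agent.Helper29.MS
open Pool.Agent.Helper16.OM (hs TTb Fac GG_fac hs_exp log_kon ee_rate2)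

theorem exact_hs_of (W : WeierstrassCurve ℤ) (N : ℕ → ℕ)
    (hNdef : ∀ p : ℕ, N p = 1 + ((Finset.range p ×ˢ Finset.range p).filter
      (fun q : ℕ × ℕ => (p : ℤ) ∣ ((q.2 : ℤ) ^ 2 + W.a₁ * (q.1 : ℤ) * (q.2 : ℤ) + W.a₃ * (q.2 : ℤ)
        - ((q.1 : ℤ) ^ 3 + W.a₂ * (q.1 : ℤ) ^ 2 + W.a₄ * (q.1 : ℤ) + W.a₆)))).card)
    (hΔ : W.Δ ≠ 0) (F : ℂ → ℂ) (hFd : Differentiable ℂ F) (hF : EulerHyp W N F)
    (hmeas : Measurable (hs W N F))
    (hbdd : ∀ a b : ℝ, 0 < a → ∃ C : ℝ, 0 ≤ C ∧ ∀ t : ℝ, a ≤ t → t ≤ b → |hs W N F (Real.exp t)| ≤ C)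
    (hgr : ∃ (A : ℝ) (k : ℕ), ∀ s : ℂ, 1 / 2 ≤ s.re → ‖F s‖ ≤ A * (1 + ‖s‖) ^ k)
    (hRH : ∀ ρ : ℂ, 1 < ρ.re → F ρ ≠ 0) :
    Summable (fun γ : ℝ => if γ = 0 then 0 else (analyticOrderNatAt F (1 + γ * I) : ℝ) ^ 2 / γ ^ 2) ∧
    (∀ X : ℝ, IntegrableOn (fun x => (hs W N F x * Real.log x) ^ 2 / x) (Ioc 2 X)) ∧
    Tendsto (fun X : ℝ => (1 / Real.log X) * ∫ x in Ioc 2 X, (hs W N F x * Real.log x) ^ 2 / x) atTop
      (𝓝 (∑' γ : ℝ, if γ = 0 then 0 else (analyticOrderNatAt F (1 + γ * I) : ℝ) ^ 2 / γ ^ 2)) := by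
  set r := analyticOrderNatAt F 1 with hr
  have hN := nhyp W N hNdef
  have hB : EulerB N (badW W) F := hF
  obtain ⟨A, hS⟩ := bsd_setup hN F hFd hB
  obtain ⟨hg0, hg⟩ := GG_lead hN F hFd hB
  rw [← hr] at hg0 hg
  obtain ⟨B1, k, hB1, hgrow⟩ := GG_growth (bad := badW W) hN F hgr
  obtain ⟨B2, hB2, hright⟩ := right_bound (bad := badW W) hN
  have hrh : ∀ s : ℂ, 0 < s.re → GG N (badW W) F s ≠ 0 := by
    intro s hs h0
    rw [GG_zero_iff hN F s hs.le] at h0
    refine hRH (1 + s) ?_ h0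
    rw [add_re, one_re]
    linarith
  set g : ℝ := ‖iteratedDeriv r F 1‖ / (r.factorial : ℝ) * Real.exp (E0 N (badW W)) with hgdef
  have hgr2 : ∀ s : ℂ, -(1 / 100 : ℝ) < s.re → ‖GG N (badW W) F s‖ ≤ max B1 B2 * (1 + ‖s‖) ^ k := by
    intro s hs
    refine (hgrow s hs).trans ?_
    gcongr
    exact le_max_left _ _
  have hr2 : ∀ s : ℂ, (11 : ℝ) ≤ s.re →
      ‖s * Lap (fun t => LL N (badW W) t - ee N (badW W) t) s‖ ≤ max B1 B2 := fun s hs =>
    (hright s hs).trans (le_max_right _ _)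
  have hmm : Fac (GG N (badW W) F) (fun γ : ℝ => analyticOrderNatAt F (1 + γ * I)) := fun μ _ =>
    GG_fac hN F hFd hB (μ * I) (by simp)
  obtain ⟨hsum, hint, hlim⟩ := exact_order hS r g hg0 hg hrh hgr2 hr2 _ hmm
  set S : ℝ := ∑' γ : ℝ, if γ = 0 then 0 else (analyticOrderNatAt F (1 + γ * I) : ℝ) ^ 2 / γ ^ 2 with hSdef
  refine ⟨hsum, ?_⟩
  set q : ℝ → ℝ := fun t => hs W N F (Real.exp t) with hq
  have hqm : Measurable q := hmeas.comp Real.measurable_exp
  set f : ℝ → ℝ := fun t => t * ((LL N (badW W) t - ee N (badW W) t) - r * Real.log t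
    - (r * Real.eulerMascheroniConstant - Real.log g)) with hf
  have hfm : Measurable f := by
    have h1 := (measurable_LL N (badW W)).sub (measurable_ee (N := N) (bad := badW W))
    have h2 : Measurable fun t : ℝ => (r : ℝ) * Real.log t := Real.measurable_log.const_mul _
    exact measurable_id.mul ((h1.sub h2).sub_const _)
  set d : ℝ → ℝ := fun t => t * q t - f t with hd
  have hdm : Measurable d := (measurable_id.mul hqm).sub hfm
  have hdeq : ∀ t : ℝ, 0 < t → d t = t * (ee N (badW W) t + TTb N (badW W) (Real.exp t)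
      - E0 N (badW W)) := by
    intro t ht
    simp only [hd, hq, hf]
    rw [hs_exp W N hNdef hΔ F hFd hF t ht, log_kon W N hNdef hΔ F hFd hF, ← hr, ← hgdef]
    ring
  -- integrability of `(t q t)^2` on bounded intervals
  have hqi : ∀ a T : ℝ, 0 < a → IntegrableOn (fun t => (t * q t) ^ 2) (Ioc a T) := by
    intro a T ha
    obtain ⟨D, hD, hDb⟩ := hbdd a T ha
    refine Measure.integrableOn_of_bounded (M := (|T| * D) ^ 2) measure_Ioc_lt_top.ne
      ((measurable_id.mul hqm).pow_const 2).aestronglyMeasurable ?_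
    rw [ae_restrict_iff' measurableSet_Ioc]
    refine Filter.Eventually.of_forall fun t ht => ?_
    have ht0 : 0 < t := ha.trans ht.1
    have h1 := hDb t ht.1.le ht.2
    rw [Real.norm_eq_abs, abs_of_nonneg (sq_nonneg _), ← sq_abs, abs_mul, abs_of_pos ht0]
    exact pow_le_pow_left₀ (by positivity) (mul_le_mul (ht.2.trans (le_abs_self T)) h1 (abs_nonneg _) (abs_nonneg _)) 2
  have hdi : ∀ T : ℝ, IntegrableOn (fun t => d t ^ 2) (Ioc 1 T) := by
    intro T
    refine Integrable.mono' (((hqi 1 T one_pos).const_mul 2).add ((hint T).const_mul 2))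
      (hdm.pow_const 2).aestronglyMeasurable ?_
    refine Filter.Eventually.of_forall fun t => ?_
    rw [Real.norm_eq_abs, abs_of_nonneg (sq_nonneg _)]
    show d t ^ 2 ≤ 2 * (t * q t) ^ 2 + 2 * (f t) ^ 2
    have h1 : t * q t = f t + d t := by
      simp only [hd]
      ring
    rw [h1]
    nlinarith [sq_nonneg (2 * f t + d t)]
  obtain ⟨K, T0, hK, hT0, hrate⟩ := ee_rate2 hN (finite_bad W hΔ)
  have hdb : ∀ t : ℝ, T0 < t → d t ^ 2 ≤ (K * 37) ^ 2 * t ^ (-2 : ℝ) := by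
    intro t ht
    have ht0 : 0 < t := by linarith
    rw [hdeq t ht0]
    have h1 := hrate t ht.le
    have h2 : t ^ 2 * Real.exp (-(47 / 200 * t)) ≤ 37 := by
      have h3 : (47 / 200 * t) ^ 2 / 2 ≤ Real.exp (47 / 200 * t) := by
        have := Real.quadratic_le_exp_of_nonneg (show 0 ≤ 47 / 200 * t by positivity)
        have h4 : 0 ≤ 47 / 200 * t := by positivity
        linarith
      have h5 : t ^ 2 ≤ 37 * Real.exp (47 / 200 * t) := by nlinarith [sq_nonneg t]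
      calc t ^ 2 * Real.exp (-(47 / 200 * t)) ≤ (37 * Real.exp (47 / 200 * t)) * Real.exp (-(47 / 200 * t)) :=
            mul_le_mul_of_nonneg_right h5 (Real.exp_pos _).le
        _ = 37 := by
            rw [mul_assoc, ← Real.exp_add, add_neg_cancel, Real.exp_zero, mul_one]
    have h6 : |t * (ee N (badW W) t + TTb N (badW W) (Real.exp t) - E0 N (badW W))| ≤ K * 37 / t := by
      rw [abs_mul, abs_of_pos ht0, le_div_iff₀ ht0]
      calc t * |ee N (badW W) t + TTb N (badW W) (Real.exp t) - E0 N (badW W)| * t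
          ≤ t * (K * Real.exp (-(47 / 200 * t))) * t := by gcongr
        _ = K * (t ^ 2 * Real.exp (-(47 / 200 * t))) := by ring
        _ ≤ K * 37 := mul_le_mul_of_nonneg_left h2 hK
    have h7 : t ^ (-2 : ℝ) = (t ^ 2)⁻¹ := by
      rw [Real.rpow_neg ht0.le]
      congr 1
      exact Real.rpow_two t
    rw [h7, ← sq_abs]
    calc _ ≤ (K * 37 / t) ^ 2 := pow_le_pow_left₀ (abs_nonneg _) h6 2
      _ = (K * 37) ^ 2 * (t ^ 2)⁻¹ := by rw [div_pow, div_eq_mul_inv]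
  have hmaj : IntegrableOn (fun t : ℝ => (K * 37) ^ 2 * t ^ (-2 : ℝ)) (Ioi T0) :=
    (integrableOn_Ioi_rpow_of_lt (by norm_num) (by linarith)).const_mul _
  have hd1 : Tendsto (fun T : ℝ => (1 / T) * ∫ t in Ioc T0 T, d t ^ 2) atTop (𝓝 0) := by
    refine mean_zero (fun t => sq_nonneg _) (∫ t in Ioi T0, (K * 37) ^ 2 * t ^ (-2 : ℝ)) T0 fun T => ?_
    have h1 : IntegrableOn (fun t : ℝ => (K * 37) ^ 2 * t ^ (-2 : ℝ)) (Ioc T0 T) :=
      hmaj.mono_set Ioc_subset_Ioi_self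
    have h2 : ∫ t in Ioc T0 T, d t ^ 2 ≤ ∫ t in Ioc T0 T, (K * 37) ^ 2 * t ^ (-2 : ℝ) := by
      refine setIntegral_mono_on ((hdi T).mono_set (Ioc_subset_Ioc_left hT0)) h1 measurableSet_Ioc fun t ht => ?_
      exact hdb t ht.1
    refine h2.trans (setIntegral_mono_set hmaj ?_ (Ioc_subset_Ioi_self.eventuallyLE))
    rw [Filter.EventuallyLE, ae_restrict_iff' measurableSet_Ioi]
    refine Filter.Eventually.of_forall fun t ht => ?_
    have ht0 : (0 : ℝ) < t := lt_trans (by linarith) (show T0 < t from ht)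
    show 0 ≤ (K * 37) ^ 2 * t ^ (-2 : ℝ)
    positivity
  have hd2 : Tendsto (fun T : ℝ => (1 / T) * ∫ t in Ioc 1 T, d t ^ 2) atTop (𝓝 0) := shift_back hdi hT0 hd1
  have hfdeq : (fun t => (f t + d t) ^ 2) = fun t => (t * q t) ^ 2 := by
    funext t
    simp only [hd]
    ring
  have h3 : Tendsto (fun T : ℝ => (1 / T) * ∫ t in Ioc 1 T, (f t + d t) ^ 2) atTop (𝓝 S) := by
    refine perturb hint hdi (fun T => ?_) hlim hd2
    rw [hfdeq]
    exact hqi 1 T one_pos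
  rw [hfdeq] at h3
  have hlog2 : Real.log 2 ≤ 1 := by
    have := Real.log_two_lt_d9
    linarith
  have h4 : Tendsto (fun T : ℝ => (1 / T) * ∫ t in Ioc (Real.log 2) T, (t * q t) ^ 2) atTop (𝓝 S) :=
    shift_back (fun T => hqi _ T (Real.log_pos one_lt_two)) hlog2 h3
  have hfun : (fun t => (hs W N F (Real.exp t) * Real.log (Real.exp t)) ^ 2) = fun t => (t * q t) ^ 2 := by
    funext t
    rw [Real.log_exp, mul_comm]
  have hsub : ∀ X : ℝ, 0 < X → IntegrableOn (fun x => (hs W N F x * Real.log x) ^ 2 / x) (Ioc 2 X) ∧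
      ∫ x in Ioc 2 X, (hs W N F x * Real.log x) ^ 2 / x = ∫ t in Ioc (Real.log 2) (Real.log X), (t * q t) ^ 2 := by
    intro X hX
    have h5 := subst_exp (fun x => (hs W N F x * Real.log x) ^ 2) (Real.log 2) (Real.log X)
    rw [Real.exp_log two_pos, Real.exp_log hX, hfun] at h5
    exact ⟨h5.1.2 (hqi _ _ (Real.log_pos one_lt_two)), h5.2⟩
  refine ⟨fun X => ?_, ?_⟩
  · rcases lt_or_ge 0 X with hX | hX
    · exact (hsub X hX).1
    · rw [Ioc_eq_empty (by linarith)]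
      exact integrableOn_empty
  · refine (h4.comp Real.tendsto_log_atTop).congr' ?_
    filter_upwards [eventually_gt_atTop (0 : ℝ)] with X hX
    rw [(hsub X hX).2]
    rfl

end Pool.Agent.Helper16.CR
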