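import Pool.Agent.Helper16.CR.V5
import Pool.Agent.Helper16.CR.N2

/-!
CR-V6. Assembly: the dichotomy for the mean square.
-/

set_option autoImplicit false

namespace Pool.Agent.Helper16.CR

open Complex Filter Topology MeasureTheory Set
open Pool.Agent.Helper13.Bsd Pool.Agent.Helper7.GW Pool.Agent.Helper58.BSD Pool.Agent.Helper29.MS
open Pool.Agent.Helper16.OM (hs)

theorem ms6 (W : WeierstrassCurve ℤ) (N : ℕ → ℕ)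
    (hNdef : ∀ p : ℕ, N p = 1 + ((Finset.range p ×ˢ Finset.range p).filter
      (fun q : ℕ × ℕ => (p : ℤ) ∣ ((q.2 : ℤ) ^ 2 + W.a₁ * (q.1 : ℤ) * (q.2 : ℤ) + W.a₃ * (q.2 : ℤ)
        - ((q.1 : ℤ) ^ 3 + W.a₂ * (q.1 : ℤ) ^ 2 + W.a₄ * (q.1 : ℤ) + W.a₆)))).card)
    (hΔ : W.Δ ≠ 0) (F : ℂ → ℂ) (hFd : Differentiable ℂ F) (hF : EulerHyp W N F) :
    ((∃ (A : ℝ) (k : ℕ), ∀ s : ℂ, 1 / 2 ≤ s.re → ‖F s‖ ≤ A * (1 + ‖s‖) ^ k) →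
      (∀ ρ : ℂ, 1 < ρ.re → F ρ ≠ 0) →
        Summable (fun t : ℝ => if t = 0 then 0 else (analyticOrderNatAt F (1 + t * I) : ℝ) ^ 2 / t ^ 2) ∧
        (∀ X : ℝ, IntegrableOn (fun x => (hs W N F x * Real.log x) ^ 2 / x) (Ioc 2 X)) ∧
        Tendsto (fun X : ℝ => (1 / Real.log X) * ∫ x in Ioc 2 X, (hs W N F x * Real.log x) ^ 2 / x) atTop
          (𝓝 (∑' t : ℝ, if t = 0 then 0 else (analyticOrderNatAt F (1 + t * I) : ℝ) ^ 2 / t ^ 2)) ∧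
        (∀ Z : Finset ℝ, (0 : ℝ) ∉ Z →
          (∀ X : ℝ, IntegrableOn (fun x : ℝ => ‖((hs W N F x * Real.log x : ℝ) : ℂ) -
            ∑ t ∈ Z, (analyticOrderNatAt F (1 + t * I) : ℂ) / (t * I) * (x : ℂ) ^ (t * I)‖ ^ 2 / x) (Ioc 2 X)) ∧
          Tendsto (fun X : ℝ => (1 / Real.log X) * ∫ x in Ioc 2 X, ‖((hs W N F x * Real.log x : ℝ) : ℂ) -
            ∑ t ∈ Z, (analyticOrderNatAt F (1 + t * I) : ℂ) / (t * I) * (x : ℂ) ^ (t * I)‖ ^ 2 / x) atTop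
            (𝓝 ((∑' t : ℝ, if t = 0 then 0 else (analyticOrderNatAt F (1 + t * I) : ℝ) ^ 2 / t ^ 2) -
              ∑ t ∈ Z, (analyticOrderNatAt F (1 + t * I) : ℝ) ^ 2 / t ^ 2))) ∧
        ∃ μ : Measure ℝ, IsProbabilityMeasure μ ∧
          Integrable (fun y : ℝ => y ^ 2) μ ∧ ∫ y, y ∂μ = 0 ∧
          ∫ y, y ^ 2 ∂μ = (∑' t : ℝ, if t = 0 then 0 else (analyticOrderNatAt F (1 + t * I) : ℝ) ^ 2 / t ^ 2) ∧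
          (∀ Φ : ℝ → ℝ, Continuous Φ → (∃ M : ℝ, ∀ y, |Φ y| ≤ M * (1 + y ^ 2)) →
            (∀ X : ℝ, IntegrableOn (fun x => Φ (hs W N F x * Real.log x) / x) (Ioc 2 X)) ∧
            Tendsto (fun X : ℝ => (1 / Real.log X) * ∫ x in Ioc 2 X, Φ (hs W N F x * Real.log x) / x) atTop
              (𝓝 (∫ y, Φ y ∂μ))) ∧
          (∀ (R K : ℝ) (Z : Finset ℝ), 0 < R → (∀ t ∈ Z, t ≠ 0 ∧ |t| ≤ R) →
            2 * R * K < ∑ t ∈ Z, (analyticOrderNatAt F (1 + t * I) : ℝ) → 0 < μ (Ioi K) ∧ 0 < μ (Iio (-K))) ∧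
          ((∃ (b c : ℕ → ℝ) (A e : ℝ) (L : ℂ → ℂ), 0 < A ∧ (e = 1 ∨ e = -1) ∧ Differentiable ℂ L ∧
              (∀ s : ℂ, 0 < s.re → L s * ∏ p ∈ W.Δ.natAbs.primeFactors,
                (1 - (b p : ℂ) * (p : ℂ) ^ (-s) + (c p : ℂ) * (p : ℂ) ^ (1 - 2 * s)) =
                  (A : ℂ) ^ s * Gamma s * F s) ∧
              ∀ s : ℂ, L (2 - s) = e * L s) →
            ∀ K : ℝ, 0 < μ (Ioi K) ∧ 0 < μ (Iio (-K)))) ∧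
    ((∀ X : ℝ, IntegrableOn (fun x => (hs W N F x * Real.log x) ^ 2 / x) (Ioc 2 X)) →
      (∃ S : ℝ, Tendsto (fun X : ℝ => (1 / Real.log X) * ∫ x in Ioc 2 X, (hs W N F x * Real.log x) ^ 2 / x)
        atTop (𝓝 S)) →
        ∃ K : ℝ, ∀ X : ℝ, 2 ≤ X → IntegrableOn (fun x => (hs W N F x * Real.log x) ^ 2 / x) (Ioc 2 X) ∧
          ∫ x in Ioc 2 X, (hs W N F x * Real.log x) ^ 2 / x ≤ K * Real.log X) ∧
    ((∃ K : ℝ, ∀ X : ℝ, 2 ≤ X → IntegrableOn (fun x => (hs W N F x * Real.log x) ^ 2 / x) (Ioc 2 X) ∧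
          ∫ x in Ioc 2 X, (hs W N F x * Real.log x) ^ 2 / x ≤ K * Real.log X) →
        IntegrableOn (fun x => hs W N F x ^ 2 / x) (Ioi (2 : ℝ))) ∧
    (IntegrableOn (fun x => hs W N F x ^ 2 / x) (Ioi (2 : ℝ)) →
      Tendsto (fun X : ℝ => ∫ x in X..(2 * X), |hs W N F x| / x) atTop (𝓝 0)) ∧
    (Tendsto (fun X : ℝ => ∫ x in X..(2 * X), |hs W N F x| / x) atTop (𝓝 0) →
      ∀ ε : ℝ, 0 < ε → ∀ᶠ X : ℝ in atTop, ∫ x in X..(2 * X), max (hs W N F x) 0 / x ≤ X ^ ε) ∧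
    ((∀ ε : ℝ, 0 < ε → ∀ᶠ X : ℝ in atTop, ∫ x in X..(2 * X), max (hs W N F x) 0 / x ≤ X ^ ε) →
      ∀ ρ : ℂ, 1 < ρ.re → F ρ ≠ 0) ∧
    ∀ ρ : ℂ, F ρ = 0 → 1 < ρ.re →
      Tendsto (fun X : ℝ => (1 / Real.log X) * ∫ x in Ioc 2 X, (hs W N F x * Real.log x) ^ 2 / x) atTop atTop ∧
      ∀ ε δ : ℝ, 0 < ε → 0 < δ → ∀ᶠ X : ℝ in atTop,
        X ^ (ρ.re - 1 - ε) ≤ ∫ x in X..(X ^ (1 + δ)), max (hs W N F x) 0 / x := by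
  obtain ⟨h1, h2, h3, h4, h5, h6⟩ := ms5 W N hNdef hΔ F hFd hF
  exact ⟨h1, h2, h3, h4, h5, h6, fun ρ hρ hρ1 => ⟨ms_infinite W N hNdef hΔ F hFd hF hρ hρ1,
    fun ε δ hε hδ => int_big_hs W N hNdef hΔ F hFd hF hρ hρ1 hδ hε⟩⟩

end Pool.Agent.Helper16.CR
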